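import Pool.Agent.H11.FM.Ring

/-!
# The second cohomology with values in `A(χ)`

`G` is a compact group with `dim H² (G, 𝔽_2) ≤ 1`, `χ` a character with values in `ℤ_2` and `z₀` a
two-cocycle with values in `ℤ_2(χ)` which is not trivial modulo two. Then `H² (G, A(χ))` is generated
by the class of `z₀`, and it is free if the characters lift to cocycles with values in `ℤ_2(χ)`.
-/

set_option autoImplicit false
set_option linter.unusedSectionVars false

namespace Pool.Agent.H11.FM

open Pool.Agent.H76.PS IsLocalRing Filter Topology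

section two

variable {G : Type} [Group G] [TopologicalSpace G] [IsTopologicalGroup G]

/-- two classes that are not trivial have a trivial sum -/
def OneDim (G : Type) [Group G] [TopologicalSpace G] : Prop :=
  ∀ e₁ ∈ Z2 G, ∀ e₂ ∈ Z2 G, e₁ ∉ B2 G → e₂ ∉ B2 G → e₁ + e₂ ∈ B2 G

lemma val_smul {M : Type} [AddCommGroup M] [Module (ZMod 2) M] (t : ZMod 2) (w : M) :
    t.val • w = t • w := by
  rw [← Nat.cast_smul_eq_nsmul (ZMod 2), ZMod.natCast_val, ZMod.cast_id]

lemma split {M : Type} [AddCommGroup M] [Finite M] (hW : ∀ w : M, w + w = 0) (hd : OneDim G)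
    {e₀ : G → G → ZMod 2} (h₀ : e₀ ∈ Z2 G) (h₀' : e₀ ∉ B2 G) {e : G → G → M}
    (he : IsLocallyConstant fun v : G × G => e v.1 v.2)
    (hc : ∀ x y w, e y w - e (x * y) w + e x (y * w) - e x y = 0) :
    ∃ (w : M) (a : G → M), IsLocallyConstant a ∧
      ∀ x y, e x y = (e₀ x y).val • w + (a x + a y - a (x * y)) := by
  letI : Module (ZMod 2) M := AddCommGroup.zmodModule (n := 2) (by
    intro w
    rw [two_nsmul]
    exact hW w)
  have hfin : Module.Finite (ZMod 2) M := Module.Finite.of_finite
  let b := Module.finBasis (ZMod 2) M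
  have h1 : ∀ i, ∃ (ε : ZMod 2) (a : G → ZMod 2), IsLocallyConstant a ∧
      ∀ x y, b.repr (e x y) i = ε * e₀ x y + (a x + a y + a (x * y)) := by
    intro i
    have h2 : (fun x y => b.repr (e x y) i) ∈ Z2 G := by
      refine ⟨he.comp (fun w => b.repr w i), fun x y w => ?_⟩
      have h3 := congrArg (fun w => b.repr w i) (hc x y w)
      simp only [map_sub, map_add, map_zero, Finsupp.sub_apply, Finsupp.add_apply,
        Finsupp.zero_apply] at h3
      beta_reduce
      revert h3
      generalize b.repr (e y w) i = p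
      generalize b.repr (e (x * y) w) i = q
      generalize b.repr (e x (y * w)) i = r
      generalize b.repr (e x y) i = t
      revert p q r t
      decide
    by_cases h : (fun x y => b.repr (e x y) i) ∈ B2 G
    · obtain ⟨a, ha, h3⟩ := h
      exact ⟨0, a, ha, fun x y => by rw [zero_mul, zero_add]; exact h3 x y⟩
    · obtain ⟨a, ha, h3⟩ := hd _ h2 _ h₀ h h₀'
      refine ⟨1, a, ha, fun x y => ?_⟩
      have h4 := h3 x y
      rw [Pi.add_apply, Pi.add_apply] at h4
      beta_reduce at h4
      revert h4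
      generalize b.repr (e x y) i = p
      generalize e₀ x y = q
      generalize a x = r
      generalize a y = t
      generalize a (x * y) = u
      revert p q r t u
      decide
  choose ε a ha h2 using h1
  refine ⟨∑ i, ε i • b i, fun x => ∑ i, a i x • b i, ?_, fun x y => ?_⟩
  · rw [IsLocallyConstant.iff_eventually_eq]
    intro x
    have h3 : ∀ᶠ y in 𝓝 x, ∀ i, a i y = a i x := by
      rw [eventually_all]
      exact fun i => ((IsLocallyConstant.iff_eventually_eq _).1 (ha i)) x
    filter_upwards [h3] with y hy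
    exact Finset.sum_congr rfl fun i _ => by rw [hy i]
  · rw [val_smul, Finset.smul_sum, ← Finset.sum_add_distrib, ← Finset.sum_sub_distrib,
      ← Finset.sum_add_distrib]
    conv_lhs => rw [← b.sum_repr (e x y)]
    refine Finset.sum_congr rfl fun i _ => ?_
    rw [h2, smul_smul, ← add_smul, ← sub_smul, ← add_smul]
    congr 1
    generalize ε i = p
    generalize e₀ x y = q
    generalize a i x = r
    generalize a i y = t
    generalize a i (x * y) = u
    revert p q r t u
    decide

lemma liftHom {M : Type} [AddCommGroup M] [Finite M] (hW : ∀ w : M, w + w = 0) {χ : G → ℤ_[2]}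
    (hL : Lifts χ) {φ : G → M} (hφ : IsLocallyConstant φ) (hm : ∀ x y, φ (x * y) = φ x + φ y) :
    ∃ (r : ℕ) (w : Fin r → M) (κ : Fin r → G → ℤ_[2]), (∀ i, Continuous (κ i)) ∧
      (∀ i x y, κ i (x * y) = κ i x + χ x * κ i y) ∧
      ∀ x, φ x = ∑ i, (PadicInt.toZMod (κ i x)).val • w i := by
  letI : Module (ZMod 2) M := AddCommGroup.zmodModule (n := 2) (by
    intro w
    rw [two_nsmul]
    exact hW w)
  have hfin : Module.Finite (ZMod 2) M := Module.Finite.of_finite
  let b := Module.finBasis (ZMod 2) M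
  have h1 : ∀ i, (fun x => b.repr (φ x) i) ∈ HS G := fun i =>
    ⟨hφ.comp (fun w => b.repr w i), fun x y => by
      show b.repr (φ (x * y)) i = b.repr (φ x) i + b.repr (φ y) i
      rw [hm, map_add, Finsupp.add_apply]⟩
  choose κ hκ hκm hκr using fun i => hL _ (h1 i)
  refine ⟨_, fun i => b i, κ, hκ, hκm, fun x => ?_⟩
  conv_lhs => rw [← b.sum_repr (φ x)]
  refine Finset.sum_congr rfl fun i _ => ?_
  rw [val_smul, hκr]

lemma functional {M : Type} [AddCommGroup M] (hW : ∀ w : M, w + w = 0) {w : M} (hw : w ≠ 0) :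
    ∃ l : M →+ ZMod 2, l w = 1 := by
  letI : Module (ZMod 2) M := AddCommGroup.zmodModule (n := 2) (by
    intro w
    rw [two_nsmul]
    exact hW w)
  obtain ⟨i, hi⟩ : ∃ i, (Module.Free.chooseBasis (ZMod 2) M).repr w i ≠ 0 := by
    by_contra h
    push Not at h
    exact hw ((Module.Free.chooseBasis (ZMod 2) M).repr.map_eq_zero_iff.1 (Finsupp.ext h))
  refine ⟨((Module.Free.chooseBasis (ZMod 2) M).coord i).toAddMonoidHom, ?_⟩
  show (Module.Free.chooseBasis (ZMod 2) M).repr w i = 1
  revert hi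
  generalize (Module.Free.chooseBasis (ZMod 2) M).repr w i = t
  revert t
  decide

end two

section coef

variable {G : Type} [Group G] [TopologicalSpace G] [IsTopologicalGroup G]
variable {A : Type} [CommRing A] [IsLocalRing A] [TopologicalSpace A] [IsTopologicalRing A]
  [Algebra ℤ_[2] A]

/-- continuous two-cocycles with values in `A(χ)` -/
structure ZG (χ : G → ℤ_[2]) (z : G → G → A) : Prop where
  cont : Continuous (fun v : G × G => z v.1 v.2)
  coc : ∀ x y w, χ x • z y w - z (x * y) w + z x (y * w) - z x y = 0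

/-- the coboundary -/
def bdA (χ : G → ℤ_[2]) (f : G → A) (x y : G) : A := f x + χ x • f y - f (x * y)

lemma cont_smul (hA : IsAdic (maximalIdeal A)) (h2 : (2 : A) ∈ maximalIdeal A) {X : Type}
    [TopologicalSpace X] {t : X → ℤ_[2]} {f : X → A} (ht : Continuous t) (hf : Continuous f) :
    Continuous fun x => t x • f x := by
  simp only [Algebra.smul_def]
  exact ((cont_alg hA h2).comp ht).mul hf

lemma ZG.bd (hA : IsAdic (maximalIdeal A)) (h2 : (2 : A) ∈ maximalIdeal A) {χ : G → ℤ_[2]}
    (hχ : IsChar χ) {f : G → A} (hf : Continuous f) : ZG χ (bdA χ f) where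
  cont := by
    have h1 : Continuous fun v : G × G => χ v.1 • f v.2 :=
      cont_smul hA h2 (hχ.cont.comp continuous_fst) (hf.comp continuous_snd)
    exact ((hf.comp continuous_fst).add h1).sub (hf.comp continuous_mul)
  coc x y w := by
    simp only [bdA, hχ.mul, mul_assoc, Algebra.smul_def, map_mul]
    ring

lemma ZG.z0 (hA : IsAdic (maximalIdeal A)) (h2 : (2 : A) ∈ maximalIdeal A) {χ : G → ℤ_[2]}
    {z₀ : G → G → ℤ_[2]} (h : z₀ ∈ Zp χ) (a : A) :
    ZG χ (fun x y => a * algebraMap ℤ_[2] A (z₀ x y)) where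
  cont := continuous_const.mul ((cont_alg hA h2).comp h.1)
  coc x y w := by
    have h1 := congrArg (fun t => a * algebraMap ℤ_[2] A t) (h.2 x y w)
    simp only [map_sub, map_add, map_mul, map_zero, mul_zero] at h1
    rw [Algebra.smul_def]
    linear_combination h1

lemma ZG.sub {χ : G → ℤ_[2]} {z z' : G → G → A} (h : ZG χ z) (h' : ZG χ z') :
    ZG χ (fun x y => z x y - z' x y) where
  cont := h.cont.sub h'.cont
  coc x y w := by
    have h1 := h.coc x y w
    have h2 := h'.coc x y w
    simp only [Algebra.smul_def] at h1 h2 ⊢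
    linear_combination h1 - h2

lemma smul_sub_mem (h2 : (2 : A) ∈ maximalIdeal A) {χ : G → ℤ_[2]} (hχ : IsChar χ) (x : G) {j : ℕ}
    {a : A} (ha : a ∈ maximalIdeal A ^ j) : χ x • a - a ∈ maximalIdeal A ^ (j + 1) := by
  have h1 : PadicInt.toZMod (χ x - 1) = 0 := by
    rw [map_sub, Pool.Agent.K7.H57.PS.toZMod_char hχ, map_one, sub_self]
  have e : χ x • a - a = algebraMap ℤ_[2] A (χ x - 1) * a := by
    rw [map_sub, map_one, Algebra.smul_def]
    ring
  rw [e, pow_succ']
  exact Ideal.mul_mem_mul (alg_mem h2 h1) ha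

lemma alg_sub_mem (h2 : (2 : A) ∈ maximalIdeal A) (t : ℤ_[2]) {j : ℕ}
    {a : A} (ha : a ∈ maximalIdeal A ^ j) :
    a * algebraMap ℤ_[2] A t - (PadicInt.toZMod t).val • a ∈ maximalIdeal A ^ (j + 1) := by
  have h1 : PadicInt.toZMod (t - ((PadicInt.toZMod t).val : ℤ_[2])) = 0 := by
    rw [map_sub, map_natCast, ZMod.natCast_val, ZMod.cast_id, sub_self]
  have e : a * algebraMap ℤ_[2] A t - (PadicInt.toZMod t).val • a =
      algebraMap ℤ_[2] A (t - ((PadicInt.toZMod t).val : ℤ_[2])) * a := by
    rw [map_sub, map_natCast, nsmul_eq_mul]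
    ring
  rw [e, pow_succ']
  exact Ideal.mul_mem_mul (alg_mem h2 h1) ha

lemma cl_nsmul {j : ℕ} (k : ℕ) {a : A} {ha : a ∈ maximalIdeal A ^ j}
    {hb : k • a ∈ maximalIdeal A ^ j} : cl (k • a) hb = k • cl a ha := by
  apply Subtype.ext
  show Ideal.Quotient.mk _ (k • a) = _
  rw [map_nsmul]
  rfl

lemma cl_congr {j : ℕ} {a b : A} {ha : a ∈ maximalIdeal A ^ j} {hb : b ∈ maximalIdeal A ^ j}
    (h : a = b) : cl a ha = cl b hb := by
  rw [cl_eq_iff, h, sub_self]
  exact zero_mem _

lemma cl_sum {j : ℕ} {ι : Type} (t : Finset ι) (f : ι → A) (hf : ∀ i, f i ∈ maximalIdeal A ^ j)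
    (ht : ∑ i ∈ t, f i ∈ maximalIdeal A ^ j) : cl (∑ i ∈ t, f i) ht = ∑ i ∈ t, cl (f i) (hf i) := by
  apply Subtype.ext
  rw [AddSubmonoidClass.coe_finsetSum]
  show Ideal.Quotient.mk _ (∑ i ∈ t, f i) = _
  rw [map_sum]
  rfl

section main

variable [IsNoetherianRing A] {χ : G → ℤ_[2]} {z₀ : G → G → ℤ_[2]}

/-- one step of the approximation -/
lemma step (hA : IsAdic (maximalIdeal A)) (h2 : (2 : A) ∈ maximalIdeal A)
    (hfin : Finite (ResidueField A)) (hχ : IsChar χ) (hd : OneDim G) (hz₀ : z₀ ∈ Zp χ)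
    (h₀ : r2 z₀ ∉ B2 G) {j : ℕ} {z : G → G → A} (hz : ZG χ z)
    (hzj : ∀ x y, z x y ∈ maximalIdeal A ^ j) :
    ∃ (a : A) (f : G → A) (z' : G → G → A), a ∈ maximalIdeal A ^ j ∧ Continuous f ∧
      (∀ x, f x ∈ maximalIdeal A ^ j) ∧ ZG χ z' ∧ (∀ x y, z' x y ∈ maximalIdeal A ^ (j + 1)) ∧
      ∀ x y, z x y = a * algebraMap ℤ_[2] A (z₀ x y) + bdA χ f x y + z' x y := by
  have hWf := finite_W hfin j (A := A)
  obtain ⟨w, a, ha, hw⟩ := split (w_add_self h2) hd (Pool.Agent.K7.H57.PS.r2_mem hχ hz₀) h₀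
    (e := fun x y => cl (z x y) (hzj x y)) (cl_lc hA (f := fun v : G × G => z v.1 v.2) hz.cont
      fun v => hzj v.1 v.2) (fun x y w => by
      have h1 : z y w - z (x * y) w + z x (y * w) - z x y ∈ maximalIdeal A ^ (j + 1) := by
        have h3 := hz.coc x y w
        have e : z y w - z (x * y) w + z x (y * w) - z x y = -(χ x • z y w - z y w) := by
          linear_combination h3
        rw [e]
        exact neg_mem (smul_sub_mem h2 hχ x (hzj y w))
      have h4 := (cl_eq_zero (ha := sub_mem (add_mem (sub_mem (hzj y w) (hzj (x * y) w))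
        (hzj x (y * w))) (hzj x y))).2 h1
      rw [cl_sub (ha := add_mem (sub_mem (hzj y w) (hzj (x * y) w)) (hzj x (y * w))) (hb := hzj x y),
        cl_add (ha := sub_mem (hzj y w) (hzj (x * y) w)) (hb := hzj x (y * w)),
        cl_sub (ha := hzj y w) (hb := hzj (x * y) w)] at h4
      exact h4)
  choose sec hsec hcl using fun w : W A j => exists_cl w
  have hf : Continuous fun x => sec (a x) := (ha.comp sec).continuous
  have hz' : ZG χ (fun x y => z x y - sec w * algebraMap ℤ_[2] A (z₀ x y) -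
      bdA χ (fun x => sec (a x)) x y) :=
    (hz.sub (ZG.z0 hA h2 hz₀ (sec w))).sub (ZG.bd hA h2 hχ hf)
  refine ⟨sec w, fun x => sec (a x), _, hsec w, hf, fun x => hsec _, hz', fun x y => ?_,
    fun x y => by ring⟩
  have h5 := hw x y
  have h6 : z x y - (r2 z₀ x y).val • sec w - (sec (a x) + sec (a y) - sec (a (x * y))) ∈
      maximalIdeal A ^ (j + 1) := by
    have m1 : (r2 z₀ x y).val • sec w ∈ maximalIdeal A ^ j := nsmul_mem (hsec w) _
    have m2 : sec (a x) + sec (a y) ∈ maximalIdeal A ^ j := add_mem (hsec _) (hsec _)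
    rw [← cl_eq_zero (ha := sub_mem (sub_mem (hzj x y) m1) (sub_mem m2 (hsec _))),
      cl_sub (ha := sub_mem (hzj x y) m1) (hb := sub_mem m2 (hsec _)),
      cl_sub (ha := hzj x y) (hb := m1), cl_sub (ha := m2) (hb := hsec _),
      cl_add (ha := hsec _) (hb := hsec _), cl_nsmul (ha := hsec w) (hb := m1), hcl, hcl, hcl, hcl,
      h5]
    abel
  have h7 := alg_sub_mem h2 (z₀ x y) (hsec w)
  have h8 := smul_sub_mem h2 hχ x (hsec (a y))
  have e : z x y - sec w * algebraMap ℤ_[2] A (z₀ x y) - bdA χ (fun x => sec (a x)) x y =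
      (z x y - (r2 z₀ x y).val • sec w - (sec (a x) + sec (a y) - sec (a (x * y)))) -
        (sec w * algebraMap ℤ_[2] A (z₀ x y) - (PadicInt.toZMod (z₀ x y)).val • sec w) -
        (χ x • sec (a y) - sec (a y)) := by
    unfold bdA r2
    ring
  rw [e]
  exact sub_mem (sub_mem h6 h7) h8

/-- **Generation.** -/
theorem gen (hA : IsAdic (maximalIdeal A)) (hc : IsAdicComplete (maximalIdeal A) A)
    (h2 : (2 : A) ∈ maximalIdeal A)
    (hfin : Finite (ResidueField A)) (hχ : IsChar χ) (hd : OneDim G) (hz₀ : z₀ ∈ Zp χ)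
    (h₀ : r2 z₀ ∉ B2 G) {z : G → G → A} (hz : ZG χ z) :
    ∃ (a : A) (f : G → A), Continuous f ∧
      ∀ x y, z x y = a * algebraMap ℤ_[2] A (z₀ x y) + bdA χ f x y := by
  choose a f z' ha hf hfj hz' hzj' h using fun (j : ℕ) (z : {z : G → G → A // ZG χ z ∧
    ∀ x y, z x y ∈ maximalIdeal A ^ j}) => step hA h2 hfin hχ hd hz₀ h₀ z.2.1 z.2.2
  let S : (j : ℕ) → {z : G → G → A // ZG χ z ∧ ∀ x y, z x y ∈ maximalIdeal A ^ j} := fun j =>
    Nat.rec ⟨z, hz, fun x y => by rw [pow_zero, Ideal.one_eq_top]; trivial⟩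
      (fun j w => ⟨z' j w, hz' j w, hzj' j w⟩) j
  have hS : ∀ j x y, (S j).1 x y = a j (S j) * algebraMap ℤ_[2] A (z₀ x y) +
      bdA χ (f j (S j)) x y + (S (j + 1)).1 x y := fun j x y => h j (S j) x y
  have hN : ∀ N x y, z x y = (∑ j ∈ Finset.range N, a j (S j)) * algebraMap ℤ_[2] A (z₀ x y) +
      bdA χ (fun x => ∑ j ∈ Finset.range N, f j (S j) x) x y + (S N).1 x y := by
    intro N
    induction N with
    | zero => intro x y; simp [S, bdA]
    | succ N ih =>
      intro x y
      rw [ih x y, hS N x y]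
      simp only [bdA, Finset.sum_range_succ, smul_add]
      ring
  obtain ⟨L, hL⟩ := exists_sum hc (fun j => a j (S j)) fun j => ha j (S j)
  choose F hF using fun x => exists_sum hc (fun j => f j (S j) x) fun j => hfj j (S j) x
  refine ⟨L, F, cont_of_approx hA (fun N x => ∑ j ∈ Finset.range N, f j (S j) x)
    (fun N => continuous_finsetSum _ fun j _ => hf j (S j)) fun N x => hF x N, fun x y => ?_⟩
  rw [← sub_eq_zero]
  refine eq_zero_of_mem fun N => ?_
  have e : z x y - (L * algebraMap ℤ_[2] A (z₀ x y) + bdA χ F x y) =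
      (S N).1 x y - (L - ∑ j ∈ Finset.range N, a j (S j)) * algebraMap ℤ_[2] A (z₀ x y) -
      (F x - ∑ j ∈ Finset.range N, f j (S j) x) -
      algebraMap ℤ_[2] A (χ x) * (F y - ∑ j ∈ Finset.range N, f j (S j) y) +
      (F (x * y) - ∑ j ∈ Finset.range N, f j (S j) (x * y)) := by
    rw [hN N x y]
    simp only [bdA, Algebra.smul_def]
    ring
  rw [e]
  exact add_mem (sub_mem (sub_mem (sub_mem ((S N).2.2 x y) (Ideal.mul_mem_right _ _ (hL N)))
    (hF x N)) (Ideal.mul_mem_left _ _ (hF y N))) (hF _ N)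

/-- **Uniqueness.** -/
theorem uniq (hA : IsAdic (maximalIdeal A)) (h2 : (2 : A) ∈ maximalIdeal A)
    (hfin : Finite (ResidueField A)) (hχ : IsChar χ) (h₀ : r2 z₀ ∉ B2 G) (hL : Lifts χ)
    {a : A} {f : G → A} (hf : Continuous f)
    (h : ∀ x y, a * algebraMap ℤ_[2] A (z₀ x y) = bdA χ f x y) : a = 0 := by
  refine eq_zero_of_mem fun j => ?_
  induction j with
  | zero => rw [pow_zero, Ideal.one_eq_top]; trivial
  | succ j ihj =>
    have key : ∀ i ≤ j, ∃ κ : G → A, Continuous κ ∧ (∀ x y, κ (x * y) = κ x + χ x • κ y) ∧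
        ∀ x, f x - κ x ∈ maximalIdeal A ^ i := by
      intro i
      induction i with
      | zero =>
        intro _
        exact ⟨fun _ => 0, continuous_const, fun x y => by rw [smul_zero, add_zero],
          fun x => by rw [pow_zero, Ideal.one_eq_top]; trivial⟩
      | succ i ih =>
        intro hi
        obtain ⟨κ, hκ, hκm, hκf⟩ := ih (by omega)
        have hWf := finite_W hfin i (A := A)
        have hgc : Continuous fun x => f x - κ x := hf.sub hκ
        obtain ⟨r, w, κ', hκ', hκm', hκs⟩ := liftHom (w_add_self h2) hL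
          (φ := fun x => cl (f x - κ x) (hκf x)) (cl_lc hA hgc hκf) (fun x y => by
            beta_reduce
            rw [← cl_add (ha := hκf x) (hb := hκf y), cl_eq_iff]
            have e : f (x * y) - κ (x * y) - (f x - κ x + (f y - κ y)) =
                (χ x • (f y - κ y) - (f y - κ y)) - a * algebraMap ℤ_[2] A (z₀ x y) := by
              rw [h, hκm, smul_sub]
              unfold bdA
              ring
            rw [e]
            refine sub_mem (smul_sub_mem h2 hχ x (hκf y)) (Ideal.mul_mem_right _ _ ?_)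
            exact Ideal.pow_le_pow_right hi ihj)
        choose sec hsec hcl using fun w : W A i => exists_cl w
        refine ⟨fun x => κ x + ∑ e, sec (w e) * algebraMap ℤ_[2] A (κ' e x), ?_, fun x y => ?_,
          fun x => ?_⟩
        · exact hκ.add (continuous_finsetSum _ fun e _ =>
            continuous_const.mul ((cont_alg hA h2).comp (hκ' e)))
        · simp only [hκm, hκm', map_add, map_mul, mul_add, Finset.sum_add_distrib, smul_add,
            Finset.smul_sum, Algebra.smul_def]
          have e : ∀ e, sec (w e) * (algebraMap ℤ_[2] A (χ x) * algebraMap ℤ_[2] A (κ' e y)) =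
              algebraMap ℤ_[2] A (χ x) * (sec (w e) * algebraMap ℤ_[2] A (κ' e y)) := fun e => by
            ring
          simp only [e, ← Finset.mul_sum]
          ring
        · have h5 : ∀ e, sec (w e) * algebraMap ℤ_[2] A (κ' e x) ∈ maximalIdeal A ^ i := fun e =>
            Ideal.mul_mem_right _ _ (hsec _)
          have h6 := Ideal.sum_mem (maximalIdeal A ^ (i + 1)) (t := Finset.univ)
            (f := fun e => sec (w e) * algebraMap ℤ_[2] A (κ' e x) -
              (PadicInt.toZMod (κ' e x)).val • sec (w e)) fun e _ =>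
                alg_sub_mem h2 (κ' e x) (hsec (w e))
          have h7 : f x - κ x - ∑ e, (PadicInt.toZMod (κ' e x)).val • sec (w e) ∈
              maximalIdeal A ^ (i + 1) := by
            have m1 : ∑ e, (PadicInt.toZMod (κ' e x)).val • sec (w e) ∈ maximalIdeal A ^ i :=
              Ideal.sum_mem _ fun e _ => nsmul_mem (hsec _) _
            rw [← cl_eq_iff (ha := hκf x) (hb := m1)]
            have h8 := hκs x
            beta_reduce at h8
            rw [h8]
            rw [cl_sum _ _ (fun e => nsmul_mem (hsec _) _)]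
            refine Finset.sum_congr rfl fun e _ => ?_
            rw [cl_nsmul (ha := hsec _), hcl]
          have e : f x - (κ x + ∑ e, sec (w e) * algebraMap ℤ_[2] A (κ' e x)) =
              (f x - κ x - ∑ e, (PadicInt.toZMod (κ' e x)).val • sec (w e)) -
                ∑ e, (sec (w e) * algebraMap ℤ_[2] A (κ' e x) -
                  (PadicInt.toZMod (κ' e x)).val • sec (w e)) := by
            rw [Finset.sum_sub_distrib]
            ring
          rw [e]
          exact sub_mem h7 h6
    obtain ⟨κ, hκ, hκm, hκf⟩ := key j le_rfl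
    have hgc : Continuous fun x => f x - κ x := hf.sub hκ
    by_contra hcon
    have hne : cl a ihj ≠ 0 := fun h => hcon (cl_eq_zero.1 h)
    obtain ⟨l, hl⟩ := functional (w_add_self h2) hne
    refine h₀ ⟨fun x => l (cl (f x - κ x) (hκf x)), (cl_lc hA hgc hκf).comp l, fun x y => ?_⟩
    have h5 : (r2 z₀ x y).val • cl a ihj = cl (f x - κ x) (hκf x) + cl (f y - κ y) (hκf y) -
        cl (f (x * y) - κ (x * y)) (hκf _) := by
      have m1 : (r2 z₀ x y).val • a ∈ maximalIdeal A ^ j := nsmul_mem ihj _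
      rw [← cl_nsmul (ha := ihj) (hb := m1), ← cl_add (ha := hκf x) (hb := hκf y),
        ← cl_sub (ha := add_mem (hκf x) (hκf y)) (hb := hκf _), cl_eq_iff]
      have h6 := alg_sub_mem h2 (z₀ x y) ihj
      have h7 := smul_sub_mem h2 hχ x (hκf y)
      have e : (r2 z₀ x y).val • a - (f x - κ x + (f y - κ y) - (f (x * y) - κ (x * y))) =
          (χ x • (f y - κ y) - (f y - κ y)) -
            (a * algebraMap ℤ_[2] A (z₀ x y) - (PadicInt.toZMod (z₀ x y)).val • a) := by
        rw [h, hκm, smul_sub]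
        unfold bdA r2
        ring
      rw [e]
      exact sub_mem h7 h6
    have h8 := congrArg l h5
    rw [map_nsmul, hl, map_sub, map_add, nsmul_eq_mul, mul_one, ZMod.natCast_val,
      ZMod.cast_id] at h8
    rw [h8]
    show l (cl (f x - κ x) (hκf x)) + l (cl (f y - κ y) (hκf y)) -
      l (cl (f (x * y) - κ (x * y)) (hκf _)) = l (cl (f x - κ x) (hκf x)) +
      l (cl (f y - κ y) (hκf y)) + l (cl (f (x * y) - κ (x * y)) (hκf _))
    generalize l (cl (f x - κ x) (hκf x)) = p
    generalize l (cl (f y - κ y) (hκf y)) = q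
    generalize l (cl (f (x * y) - κ (x * y)) (hκf _)) = r
    revert p q r
    decide

end main

end coef

end Pool.Agent.H11.FM
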