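import Pool.Agent.H11.FM.Log

/-!
# The classes of the two-cocycles with values in `A(1)`, on the Galois group
-/

set_option autoImplicit false
set_option linter.unusedSectionVars false

namespace Pool.Agent.H11.FM

open Pool.Agent.Y715.Gi (QB KK GK)
open Pool.Agent.Z384 (II DD DDs Fld)
open Pool.Agent.H76.PS IsLocalRing Filter Topology
open Pool.Agent.K7

variable {s : QB}

/-- the square of the cyclotomic character is not trivial modulo `16` -/
lemma cyc_ne {d : ℕ} (hs : s ^ 2 = -(d : QB)) (hF : Fld d) {c : QB ≃ₐ[ℚ] QB} (hc : IsConj c)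
    {χ : GK s → ℤ_[2]} (hχ : IsCyc χ) : ∃ σ, ∀ t, χ σ ^ 2 ≠ 1 + 16 * t := by
  by_contra hcon
  push Not at hcon
  obtain ⟨ζ, h4⟩ := IsAlgClosed.exists_pow_nat_eq (-1 : QB) (n := 4) (by norm_num)
  have hz0 : ζ ≠ 0 := by
    rintro rfl
    norm_num at h4
  have h8 : ζ ^ 2 ^ 3 = 1 := by
    rw [show (2 ^ 3 : ℕ) = 4 * 2 from rfl, pow_mul, h4]
    norm_num
  have hz : (ζ + ζ⁻¹) ^ 2 = 2 := by
    have h1 : (ζ + ζ⁻¹) ^ 2 = (ζ ^ 4 + 1) / ζ ^ 2 + 2 := by
      field_simp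
      ring
    rw [h1, h4]
    norm_num
  refine H29.PS.sqrt_two_not_mem hs hF.ne_zero hc hz ?_
  have hfix : ∀ σ : GK s, σ (ζ + ζ⁻¹) = ζ + ζ⁻¹ := by
    intro σ
    have h1 := hχ σ 3 ζ h8
    obtain ⟨t, ht⟩ := hcon σ
    set n : ZMod (2 ^ 3) := PadicInt.toZModPow 3 (χ σ) with hn
    have h2 : PadicInt.toZModPow 3 (χ σ - (n.val : ℤ_[2])) = 0 := by
      rw [map_sub, map_natCast, ZMod.natCast_val, ZMod.cast_id, ← hn, sub_self]
    rw [← RingHom.mem_ker, PadicInt.ker_toZModPow, Ideal.mem_span_singleton] at h2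
    obtain ⟨w, hw⟩ := h2
    have h3 : χ σ = (n.val : ℤ_[2]) + 8 * w := by
      have : ((2 : ℕ) : ℤ_[2]) ^ 3 = 8 := by norm_num
      rw [this] at hw
      linear_combination hw
    have h5 : ((n.val : ℤ_[2])) ^ 2 - 1 = 16 * (t - (n.val : ℤ_[2]) * w - 4 * w ^ 2) := by
      rw [h3] at ht
      linear_combination ht
    have h6 : (PadicInt.toZModPow 4 : ℤ_[2] →+* ZMod (2 ^ 4)) (((n.val : ℤ_[2])) ^ 2 - 1) = 0 := by
      rw [h5, map_mul, map_ofNat]
      have : (OfNat.ofNat 16 : ZMod (2 ^ 4)) = 0 := by decide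
      rw [this, zero_mul]
    rw [map_sub, map_pow, map_natCast, map_one] at h6
    have h7 : n.val = 1 ∨ n.val = 7 := by
      clear_value n
      clear hn h1 hw h3 h5
      revert h6
      revert n
      decide
    rcases h7 with h | h
    · rw [h, pow_one] at h1
      rw [map_add, map_inv₀, h1]
    · rw [h] at h1
      have h9 : ζ ^ 7 = ζ⁻¹ := by
        apply eq_inv_of_mul_eq_one_left
        rw [← pow_succ]
        exact h8
      rw [map_add, map_inv₀, h1, h9, inv_inv, add_comm]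
  have h2 := InfiniteGalois.mem_bot_iff_fixed (k := KK s) (K := QB) (ζ + ζ⁻¹)
  rw [IntermediateField.mem_bot] at h2
  obtain ⟨q, hq⟩ := h2.2 hfix
  rw [← hq]
  exact q.2

/-- coboundaries of invariant functions -/
def BN (A : Type) [CommRing A] [TopologicalSpace A] [Algebra ℤ_[2] A] (χ : GK s → ℤ_[2]) :
    Set (GK s → GK s → A) :=
  {z | ∃ f : GK s → A, Continuous f ∧ (∀ σ, ∀ n ∈ Nf s, f (σ * n) = f σ) ∧
    ∀ x y, z x y = f x + χ x • f y - f (x * y)}

section BN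

variable {A : Type} [CommRing A] [TopologicalSpace A] [IsTopologicalRing A] [Algebra ℤ_[2] A]
  {χ : GK s → ℤ_[2]}

lemma BN.zero : (fun _ _ => 0) ∈ BN A χ :=
  ⟨fun _ => 0, continuous_const, fun _ _ _ => rfl, fun x y => by simp⟩

lemma BN.add {z z' : GK s → GK s → A} (h : z ∈ BN A χ) (h' : z' ∈ BN A χ) :
    (fun x y => z x y + z' x y) ∈ BN A χ := by
  obtain ⟨f, hf, hn, hz⟩ := h
  obtain ⟨f', hf', hn', hz'⟩ := h'
  refine ⟨fun x => f x + f' x, hf.add hf', fun σ n h => ?_, fun x y => ?_⟩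
  · beta_reduce
    rw [hn σ n h, hn' σ n h]
  · simp only [hz, hz', smul_add]
    ring

lemma BN.mul {z : GK s → GK s → A} (h : z ∈ BN A χ) (a : A) : (fun x y => a * z x y) ∈ BN A χ := by
  obtain ⟨f, hf, hn, hz⟩ := h
  refine ⟨fun x => a * f x, continuous_const.mul hf, fun σ n h => ?_, fun x y => ?_⟩
  · beta_reduce
    rw [hn σ n h]
  · simp only [hz, mul_add, mul_sub, mul_smul_comm]

lemma BN.sub {z z' : GK s → GK s → A} (h : z ∈ BN A χ) (h' : z' ∈ BN A χ) :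
    (fun x y => z x y - z' x y) ∈ BN A χ := by
  have := BN.add h (BN.mul h' (-1))
  simpa only [neg_mul, one_mul, ← sub_eq_add_neg] using this

lemma BN.congr {z z' : GK s → GK s → A} (h : z ∈ BN A χ) (h' : ∀ x y, z' x y = z x y) :
    z' ∈ BN A χ := by
  have : z' = z := funext fun x => funext fun y => h' x y
  rwa [this]

lemma BN.sum {ι : Type} (t : Finset ι) (F : ι → GK s → GK s → A) (hF : ∀ j ∈ t, F j ∈ BN A χ) :
    (fun g h => ∑ j ∈ t, F j g h) ∈ BN A χ := by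
  classical
  induction t using Finset.induction_on with
  | empty => exact BN.congr BN.zero fun _ _ => Finset.sum_empty
  | insert a t ha ih =>
    refine BN.congr (BN.add (hF a (Finset.mem_insert_self _ _))
      (ih fun j hj => hF j (Finset.mem_insert_of_mem hj))) fun g h => ?_
    exact Finset.sum_insert ha

lemma BN.conj {cj : GK s → GK s} (hcc : Continuous cj) (hcm : ∀ σ τ, cj (σ * τ) = cj σ * cj τ)
    (hcn : ∀ σ ∈ Nf s, cj σ ∈ Nf s) (hχc : ∀ σ, χ (cj σ) = χ σ) {z : GK s → GK s → A}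
    (h : z ∈ BN A χ) : (fun x y => z (cj x) (cj y)) ∈ BN A χ := by
  obtain ⟨f, hf, hn, hz⟩ := h
  refine ⟨fun x => f (cj x), hf.comp hcc, fun σ n h => ?_, fun x y => ?_⟩
  · beta_reduce
    rw [hcm, hn _ _ (hcn n h)]
  · beta_reduce
    rw [hz, hχc, hcm]

end BN

/-- the basic class -/
structure DatN (χ : GK s → ℤ_[2]) (cj : GK s → GK s) (z₀ : GK s → GK s → ℤ_[2]) : Prop where
  gen : ∀ (A : Type) [CommRing A] [IsLocalRing A] [IsNoetherianRing A] [TopologicalSpace A]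
    [IsTopologicalRing A] [Algebra ℤ_[2] A], IsAdic (maximalIdeal A) →
    IsAdicComplete (maximalIdeal A) A → (2 : A) ∈ maximalIdeal A → Finite (ResidueField A) →
    ∀ z : GK s → GK s → A, ZA χ z →
      ∃ a : A, (fun x y => z x y - a * algebraMap ℤ_[2] A (z₀ x y)) ∈ BN A χ
  uniq : ∀ (A : Type) [CommRing A] [IsLocalRing A] [IsNoetherianRing A] [TopologicalSpace A]
    [IsTopologicalRing A] [Algebra ℤ_[2] A], IsAdic (maximalIdeal A) →
    (2 : A) ∈ maximalIdeal A → Finite (ResidueField A) →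
    ∀ a : A, (fun x y => a * algebraMap ℤ_[2] A (z₀ x y)) ∈ BN A χ → a = 0
  inv : ∀ (A : Type) [CommRing A] [IsLocalRing A] [IsNoetherianRing A] [TopologicalSpace A]
    [IsTopologicalRing A] [Algebra ℤ_[2] A], IsAdic (maximalIdeal A) → (2 : A) ∈ maximalIdeal A →
    (fun x y => algebraMap ℤ_[2] A (z₀ (cj x) (cj y)) - algebraMap ℤ_[2] A (z₀ x y)) ∈ BN A χ

theorem exists_datN (hB1 : StB1) (hB : StB) (hE0 : StE0) (hG1 : StG1) (hG2 : StG2) (hH : StH)
    (hA : StA) (hE : StE)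
    {d : ℕ} (hs : s ^ 2 = -(d : QB)) (hF : Fld d) {χ : GK s → ℤ_[2]} (hχ : IsCyc χ)
    {c : QB ≃ₐ[ℚ] QB} (hc : IsConj c) {cj : GK s → GK s} (hcj : ∀ σ x, cj σ x = c (σ (c x))) :
    ∃ z₀, DatN χ cj z₀ := by
  obtain ⟨hcomp, hpow, -⟩ := hE0 s d hs hF
  obtain ⟨hcnt, -⟩ := hE s d hs hF
  obtain ⟨hχc, hχn⟩ := hG1 s χ hχ
  have hcc : CompactSpace (GK s) := inferInstance
  obtain ⟨A1, A2⟩ := hA (Gs s) 1 le_rfl hcnt hpow
  -- the character of the quotient
  obtain ⟨χ', hχ'⟩ : ∃ χ' : Gs s → ℤ_[2], ∀ σ : GK s, χ' (QuotientGroup.mk σ) = χ σ := by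
    refine ⟨fun x => Quotient.liftOn' x χ fun σ τ h => ?_, fun σ => rfl⟩
    rw [QuotientGroup.leftRel_apply] at h
    have e1 : τ = σ * (σ⁻¹ * τ) := by group
    rw [e1, hχn _ _ h]
  have hmk : Function.Surjective (QuotientGroup.mk : GK s → Gs s) := QuotientGroup.mk_surjective
  have hχ'c : IsChar χ' := by
    refine ⟨?_, ?_, ?_⟩
    · refine (QuotientGroup.isOpenQuotientMap_mk (N := Nf s)).isQuotientMap.continuous_iff.2 ?_
      have : χ' ∘ (QuotientGroup.mk : GK s → Gs s) = χ := funext hχ'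
      rw [this]
      exact hχc.cont
    · have := hχ' 1
      rw [hχc.one] at this
      exact this
    · intro x y
      obtain ⟨σ, rfl⟩ := hmk x
      obtain ⟨τ, rfl⟩ := hmk y
      rw [← QuotientGroup.mk_mul, hχ', hχ', hχ', hχc.mul]
  have hL : Lifts χ' := hG2 s d hs hF χ hχ χ' hχ'
  obtain ⟨-, hinv⟩ := hB (Gs s) χ' hχ'c A1 hL
    (cq hc hcj) (cq_cont hc hcj) (map_mul _) (cq_cq hc hcj) (fun x => by
      obtain ⟨σ, rfl⟩ := hmk x
      rw [cq_mk, hχ', hχ', cyc_cj hc hcj hχ]) (hH s d hs hF χ hχ χ' hχ' c hc cj hcj (cq hc hcj)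
      (cq_mk hc hcj) A2)
  obtain ⟨z₀, hz₀, h₀⟩ := exists_z0 hχ'c hL A2 (by
    obtain ⟨σ, hσ⟩ := cyc_ne hs hF hc hχ
    exact ⟨QuotientGroup.mk σ, fun t => by rw [hχ']; exact hσ t⟩)
  have hinv' : (fun x y => z₀ (cq hc hcj x) (cq hc hcj y) - z₀ x y) ∈ Bp χ' := by
    have hcZ : (fun x y => z₀ (cq hc hcj x) (cq hc hcj y)) ∈ Zp χ' := by
      refine ⟨hz₀.1.comp (((cq_cont hc hcj).comp continuous_fst).prodMk
        ((cq_cont hc hcj).comp continuous_snd)), fun x y v => ?_⟩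
      have h1 := hz₀.2 (cq hc hcj x) (cq hc hcj y) (cq hc hcj v)
      have h2 : χ' (cq hc hcj x) = χ' x := by
        obtain ⟨σ, rfl⟩ := hmk x
        rw [cq_mk, hχ', hχ', cyc_cj hc hcj hχ]
      rw [h2] at h1
      simpa only [← map_mul] using h1
    obtain ⟨a, ha⟩ := (hB1 (Gs s) χ' hχ'c A1).2.2.1 z₀ hz₀ h₀ _ hcZ
    have ha1 : a = 1 := by
      obtain ⟨f, hf, hfz⟩ := ha
      obtain ⟨g, hg, hgz⟩ := hinv z₀ hz₀
      have h3 : Continuous fun x => g x - (f x : ℚ_[2]) :=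
        hg.sub (continuous_subtype_val.comp hf)
      obtain ⟨N, g', hg', hgg⟩ := exists_scale h3
      have h5 := uniq (A := ℤ_[2]) (G := Gs s) (χ := χ') (z₀ := z₀) isAdic_padic two_mem_padic
        fin_padic hχ'c h₀ hL (a := 2 ^ N * (a - 1)) hg' (fun x y => by
          apply PadicInt.ext
          have h6 := hfz x y
          have h7 := hgz x y
          have h8 : ((z₀ (cq hc hcj x) (cq hc hcj y) : ℤ_[2]) : ℚ_[2]) - (a : ℚ_[2]) * (z₀ x y : ℤ_[2]) =
              (f x : ℚ_[2]) + (χ' x : ℚ_[2]) * (f y : ℚ_[2]) - (f (x * y) : ℚ_[2]) := by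
            have := congrArg (fun t : ℤ_[2] => (t : ℚ_[2])) h6
            push_cast at this
            exact this
          have e2 : ((2 : ℤ_[2]) : ℚ_[2]) = 2 := rfl
          unfold bdA
          rw [Algebra.algebraMap_self, RingHom.id_apply, smul_eq_mul]
          push_cast
          rw [e2, hgg, hgg, hgg]
          linear_combination (2 : ℚ_[2]) ^ N * (h7 - h8))
      have h9 : (2 : ℤ_[2]) ^ N ≠ 0 := pow_ne_zero _ (by norm_num)
      exact sub_eq_zero.1 ((mul_eq_zero.1 h5).resolve_left h9)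
    rw [ha1] at ha
    simpa only [one_mul] using ha
  refine ⟨fun σ τ => z₀ (QuotientGroup.mk σ) (QuotientGroup.mk τ), ?_, ?_, ?_⟩
  · intro A _ _ _ _ _ _ hA hc h2 hfin z hz
    obtain ⟨z', hz'c, hz'⟩ := descend2 hz.cont hz.inv1 hz.inv2
    have hZ : ZG χ' z' := ⟨hz'c, fun x y w => by
      obtain ⟨σ, rfl⟩ := hmk x
      obtain ⟨τ, rfl⟩ := hmk y
      obtain ⟨υ, rfl⟩ := hmk w
      rw [← QuotientGroup.mk_mul, ← QuotientGroup.mk_mul, hz', hz', hz', hz', hχ', hz.coc]⟩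
    obtain ⟨a, f, hf, hfz⟩ := gen hA hc h2 hfin hχ'c A1 hz₀ h₀ hZ
    refine ⟨a, fun σ => f (QuotientGroup.mk σ), hf.comp QuotientGroup.continuous_mk,
      fun σ n hn => ?_, fun x y => ?_⟩
    · beta_reduce
      congr 1
      exact (QuotientGroup.mk_mul_of_mem σ hn)
    · have h5 := hfz (QuotientGroup.mk x) (QuotientGroup.mk y)
      rw [hz', bdA, hχ', ← QuotientGroup.mk_mul] at h5
      beta_reduce
      rw [h5]
      ring
  · intro A _ _ _ _ _ _ hA h2 hfin a h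
    obtain ⟨f, hf, hfn, hfz⟩ := h
    obtain ⟨f', hf'⟩ : ∃ f' : Gs s → A, ∀ σ : GK s, f' (QuotientGroup.mk σ) = f σ := by
      refine ⟨fun x => Quotient.liftOn' x f fun σ τ h => ?_, fun σ => rfl⟩
      rw [QuotientGroup.leftRel_apply] at h
      have e1 : τ = σ * (σ⁻¹ * τ) := by group
      rw [e1, hfn _ _ h]
    have hfc : Continuous f' := by
      refine (QuotientGroup.isOpenQuotientMap_mk (N := Nf s)).isQuotientMap.continuous_iff.2 ?_
      have : f' ∘ (QuotientGroup.mk : GK s → Gs s) = f := funext hf'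
      rw [this]
      exact hf
    refine uniq hA h2 hfin hχ'c h₀ hL hfc fun x y => ?_
    obtain ⟨σ, rfl⟩ := hmk x
    obtain ⟨τ, rfl⟩ := hmk y
    rw [bdA, ← QuotientGroup.mk_mul, hf', hf', hf', hχ']
    exact hfz σ τ
  · intro A _ _ _ _ _ _ hA h2
    obtain ⟨f, hf, hfz⟩ := hinv'
    refine ⟨fun σ => algebraMap ℤ_[2] A (f (QuotientGroup.mk σ)),
      (cont_alg hA h2).comp (hf.comp QuotientGroup.continuous_mk), fun σ n hn => ?_, fun x y => ?_⟩
    · beta_reduce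
      congr 2
      exact (QuotientGroup.mk_mul_of_mem σ hn)
    · have h5 := congrArg (algebraMap ℤ_[2] A) (hfz (QuotientGroup.mk x) (QuotientGroup.mk y))
      beta_reduce at h5
      rw [cq_mk, cq_mk, hχ', ← QuotientGroup.mk_mul] at h5
      simp only [map_sub, map_add, map_mul] at h5
      rw [Algebra.smul_def]
      exact h5

end Pool.Agent.H11.FM
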