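import Pool.Agent.H11.FM.KerR

/-!
# The family
-/

set_option autoImplicit false
set_option linter.unusedSectionVars false

namespace Pool.Agent.H11.FM

open Pool.Agent.Y715.Gi (QB KK GK)
open Pool.Agent.Z384
open Pool.Agent.H76.PS IsLocalRing Filter Topology
open Pool.Agent.K7
open Matrix

section basechange

variable {s : QB} {A : Type} [CommRing A] [IsLocalRing A] [TopologicalSpace A]
  [IsTopologicalRing A] [Algebra ℤ_[2] A]
  {B : Type} [CommRing B] [IsLocalRing B] [TopologicalSpace B]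
  [IsTopologicalRing B] [Algebra ℤ_[2] B] {n : ℕ}

/-- the base change of a representation -/
noncomputable def bc (φ : A →ₐ[ℤ_[2]] B) (ρ : GK s →* GL (Fin n) A) : GK s →* GL (Fin n) B :=
  (GeneralLinearGroup.map (n := Fin n) (φ : A →+* B)).comp ρ

lemma bc_apply (φ : A →ₐ[ℤ_[2]] B) (ρ : GK s →* GL (Fin n) A) (σ : GK s) :
    (bc φ ρ σ : Matrix (Fin n) (Fin n) B) = (ρ σ : Matrix (Fin n) (Fin n) A).map φ := rfl

lemma map_mem (hA : IsAdic (maximalIdeal A)) (hB : IsAdic (maximalIdeal B))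
    {φ : A →ₐ[ℤ_[2]] B} (hφ : Continuous φ) {a : A} (ha : a ∈ maximalIdeal A) :
    φ a ∈ maximalIdeal B := by
  have h1 : φ ⁻¹' ((maximalIdeal B ^ 1 : Ideal B) : Set B) ∈ 𝓝 (0 : A) := by
    refine ((isOpen_pow hB 1).preimage hφ).mem_nhds ?_
    show φ 0 ∈ maximalIdeal B ^ 1
    rw [map_zero]
    exact zero_mem _
  obtain ⟨j, hj⟩ := (isAdic_iff.1 hA).2 _ h1
  have h2 : φ (a ^ j) ∈ maximalIdeal B ^ 1 := hj (Ideal.pow_mem_pow ha j)
  rw [pow_one, map_pow] at h2
  exact (Ideal.IsMaximal.isPrime (maximalIdeal.isMaximal B)).mem_of_pow_mem j h2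

lemma bc_rp (hA : IsAdic (maximalIdeal A)) (hB : IsAdic (maximalIdeal B))
    {φ : A →ₐ[ℤ_[2]] B} (hφ : Continuous φ) {ρ : GK s →* GL (Fin n) A} (hρ : Rp ρ) :
    Rp (bc φ ρ) where
  cont i j := hφ.comp (hρ.cont i j)
  unipotent σ := by
    obtain ⟨m, hm⟩ := hρ.unipotent σ
    refine ⟨m, fun i j => ?_⟩
    have e : ((bc φ ρ σ : Matrix (Fin n) (Fin n) B) - 1) ^ m =
        (((ρ σ : Matrix (Fin n) (Fin n) A) - 1) ^ m).map φ := by
      have h1 := map_pow (φ.mapMatrix (m := Fin n)) ((ρ σ : Matrix (Fin n) (Fin n) A) - 1) m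
      rw [map_sub, map_one] at h1
      exact h1.symm
    rw [e, Matrix.map_apply]
    exact map_mem hA hB hφ (hm i j)
  unramified p _ ι hp σ hσ := by
    show GeneralLinearGroup.map (n := Fin n) (φ : A →+* B) (ρ σ) = 1
    rw [hρ.unramified p ι hp σ hσ, map_one]

lemma map_mulVec (φ : A →ₐ[ℤ_[2]] B) {m k : ℕ} (M : Matrix (Fin m) (Fin k) A) (v : Fin k → A)
    (i : Fin m) : φ ((M *ᵥ v) i) = (M.map φ *ᵥ fun j => φ (v j)) i := by
  simp only [mulVec, dotProduct, map_sum, map_mul, Matrix.map_apply]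

lemma bc_gr {φ : A →ₐ[ℤ_[2]] B} (hφ : Continuous φ) {ρ : GK s →* GL (Fin n) A}
    {x : GK s → Fin n → A} (hx : GR ρ x) : GR (bc φ ρ) (fun σ i => φ (x σ i)) where
  mul σ τ := by
    funext i
    rw [hx.mul, Pi.add_apply, map_add, map_mulVec]
    rfl
  cont := continuous_pi fun i => hφ.comp ((continuous_apply i).comp hx.cont)
  unr p _ ι hp σ hσ := by
    funext i
    rw [hx.unr p ι hp σ hσ]
    exact map_zero _

lemma bc_J (φ : A →ₐ[ℤ_[2]] B) {ρ : GK s →* GL (Fin n) A} {J : Matrix (Fin n) (Fin n) A}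
    {χ : GK s → ℤ_[2]} {cj : GK s → GK s}
    (hJρ : ∀ σ, (ρ σ : Matrix (Fin n) (Fin n) A)ᵀ * J * (ρ (cj σ) : Matrix _ _ A) = χ σ • J)
    (σ : GK s) : (bc φ ρ σ : Matrix (Fin n) (Fin n) B)ᵀ * J.map φ *
      (bc φ ρ (cj σ) : Matrix _ _ B) = χ σ • J.map φ := by
  have h1 := congrArg (φ.mapMatrix (m := Fin n)) (hJρ σ)
  rw [map_mul, map_mul] at h1
  have h2 : (φ.mapMatrix (m := Fin n)) ((ρ σ : Matrix (Fin n) (Fin n) A)ᵀ) =
      (bc φ ρ σ : Matrix (Fin n) (Fin n) B)ᵀ := rfl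
  have h3 : (φ.mapMatrix (m := Fin n)) (χ σ • J) = χ σ • J.map φ := by
    rw [map_smul]
    rfl
  rw [h2, h3] at h1
  exact h1

lemma bc_cpr (φ : A →ₐ[ℤ_[2]] B) (ρ : GK s →* GL (Fin n) A) (J : Matrix (Fin n) (Fin n) A)
    (cj : GK s → GK s) (x y : GK s → Fin n → A) (g h : GK s) :
    cpr (J.map φ) (bc φ ρ) cj (fun σ i => φ (x σ i)) (fun σ i => φ (y σ i)) g h =
      φ (cpr J ρ cj x y g h) := by
  unfold cpr
  have h1 : ∀ u v : Fin n → A, (fun i => φ (u i)) ⬝ᵥ (fun i => φ (v i)) = φ (u ⬝ᵥ v) := by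
    intro u v
    simp only [dotProduct, map_sum, map_mul]
  rw [← h1]
  congr 1
  funext i
  rw [map_mulVec]
  have h2 : (fun j => φ (((ρ (cj g) : Matrix (Fin n) (Fin n) A) *ᵥ y (cj h)) j)) =
      ((ρ (cj g) : Matrix (Fin n) (Fin n) A).map φ *ᵥ fun j => φ (y (cj h) j)) :=
    funext fun j => map_mulVec φ _ _ j
  rw [h2]
  rfl

lemma bc_bn {φ : A →ₐ[ℤ_[2]] B} (hφ : Continuous φ) {χ : GK s → ℤ_[2]} {z : GK s → GK s → A}
    (hz : z ∈ BN A χ) : (fun x y => φ (z x y)) ∈ BN B χ := by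
  obtain ⟨f, hf, hn, hfz⟩ := hz
  refine ⟨fun x => φ (f x), hφ.comp hf, fun σ n h => ?_, fun x y => ?_⟩
  · beta_reduce
    rw [hn σ n h]
  · beta_reduce
    rw [hfz, map_sub, map_add, map_smul]

end basechange

/-- **Selmer groups in families.** -/
theorem family {s : QB} {d : ℕ} (hs : s ^ 2 = -(d : QB)) (hF : Fld d) {χ : GK s → ℤ_[2]}
    (hχ : IsCyc χ)
    {c : QB ≃ₐ[ℚ] QB} (hc : IsConj c) {cj : GK s → GK s} (hcj : ∀ σ x, cj σ x = c (σ (c x)))
    {A : Type} [CommRing A] [IsLocalRing A] [IsNoetherianRing A] [TopologicalSpace A]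
    [IsTopologicalRing A] [Algebra ℤ_[2] A] (hA : IsAdic (maximalIdeal A))
    (hcA : IsAdicComplete (maximalIdeal A) A) (hfin : Finite (ResidueField A))
    (h2 : (2 : A) ∈ maximalIdeal A) {n : ℕ}
    {ρ : GK s →* GL (Fin n) A} (hρ : Rp ρ) {J : Matrix (Fin n) (Fin n) A} (hJ : J.IsSymm)
    (hJρ : ∀ σ, (ρ σ : Matrix (Fin n) (Fin n) A)ᵀ * J * (ρ (cj σ) : Matrix _ _ A) = χ σ • J)
    (ι₀ : QB →ₐ[ℚ] PadicAlgCl 2) {k : ℕ} (l : Fin k → DDs (s := s) ι₀ → Fin n → A)
    (hlc : ∀ i, Continuous (l i))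
    (hl : ∀ i δ δ', l i (δ * δ') = l i δ + (ρ (δ : GK s) : Matrix (Fin n) (Fin n) A) *ᵥ l i δ') :
    ∃ C : Matrix (Fin k) (Fin k) A, Cᵀ = -C ∧
      (∀ (B : Type) [CommRing B] [IsLocalRing B] [IsNoetherianRing B] [TopologicalSpace B]
        [IsTopologicalRing B] [Algebra ℤ_[2] B], IsAdic (maximalIdeal B) →
        Finite (ResidueField B) → ∀ φ : A →ₐ[ℤ_[2]] B, Continuous φ →
        ∀ (u : Fin k → B) (v : Fin n → B), ∃ z : GK s → Fin n → B, GR (bc φ ρ) z ∧
          (∀ δ : DDs (s := s) ι₀, z δ = ∑ i, u i • (fun t => φ (l i δ t)) +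
            ((bc φ ρ (δ : GK s) : Matrix (Fin n) (Fin n) B) *ᵥ v - v)) ∧
          (∀ z', GR (bc φ ρ) z' → (∀ δ : DDs (s := s) ι₀, z' δ = ∑ i, u i • (fun t => φ (l i δ t)) +
            ((bc φ ρ (δ : GK s) : Matrix (Fin n) (Fin n) B) *ᵥ v - v)) → z' = z) ∧
          ((∀ i, OR (J.map φ) (bc φ ρ) χ cj ι₀ (fun δ t => φ (l i δ t)) z) ↔
            C.map φ *ᵥ u = 0)) ∧
      ∀ (B : Type) [CommRing B] [IsDomain B] [IsLocalRing B] [IsNoetherianRing B]
        [TopologicalSpace B] [IsTopologicalRing B] [Algebra ℤ_[2] B], IsAdic (maximalIdeal B) →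
        Finite (ResidueField B) → ∀ φ : A →ₐ[ℤ_[2]] B, Continuous φ →
        ∀ (F : Type) [Field F] [Algebra B F] [IsFractionRing B F],
        (∀ a : Fin k → F, (∃ v : Fin n → F, ∀ δ : DDs (s := s) ι₀,
          ∑ i, a i • Pool.Agent.H76.PS.em F (fun t => φ (l i δ t)) =
            act F (bc φ ρ) (δ : GK s) v - v) → a = 0) →
        ∃ r, r + ((C.map φ).map (algebraMap B F)).rank = k ∧ (r = 0 ↔ φ C.det ≠ 0) ∧
          ((2 : B) ≠ 0 → Even (k - r)) ∧
          ∃ z : Fin r → GK s → Fin n → F,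
          (∀ t, Sel ((J.map φ).map (algebraMap B F)) (bc φ ρ) χ cj ι₀
            (fun i δ => Pool.Agent.H76.PS.em F (fun t => φ (l i δ t))) (z t)) ∧
          (∀ a : Fin r → F, (∃ v : Fin n → F, ∀ σ, ∑ t, a t • z t σ =
            act F (bc φ ρ) σ v - v) → a = 0) ∧
          ∀ y, Sel ((J.map φ).map (algebraMap B F)) (bc φ ρ) χ cj ι₀
            (fun i δ => Pool.Agent.H76.PS.em F (fun t => φ (l i δ t))) y →
            ∃ (a : Fin r → F) (v : Fin n → F),
              ∀ σ, y σ = ∑ t, a t • z t σ + (act F (bc φ ρ) σ v - v) := by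
  have hE0 : StE0 := H34.PS.stE0
  have hE1 : StE1 := H15.PS.stE1
  have hE : StE := H82.PS.stE2 stC stD H34.PS.stD3 hE0 hE1
  have hG1 : StG1 := H79.PS.stG1 H34.PS.stD3
  have hG2 : StG2 := H79.PS.stG2 hE hE0 H34.PS.stD3
  have hH : StH := H29.PS.stH hE hE0 H34.PS.stD3 hG1
  have hF2 : StF2 := H60.PS.stF2 hE0 (H22.PS.stF1 hE hE0)
  obtain ⟨z₀, hD⟩ := exists_datN H57.PS.b1 stB hE0 hG1 hG2 hH stA hE hs hF hχ hc hcj
  have hcc := cj_cont hc hcj
  have hcm := cj_mul hc hcj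
  have hci := cj_cj hc hcj
  have hcn : ∀ σ ∈ Nf s, cj σ ∈ Nf s := fun σ hσ => cj_Nf hc hcj hσ
  choose x hxc hx hxu hxl using fun i => hF2 s d hs hF ι₀ A hA hcA hfin h2 n ρ hρ (l i) (hlc i)
    (hl i)
  have hxG : ∀ i, GR ρ (x i) := fun i => ⟨hx i, hxc i, hxu i⟩
  have hxn : ∀ i, ∀ σ ∈ Nf s, x i σ = 0 := fun i σ hσ =>
    coc_Nf hA hfin h2 hρ (hxc i) (hx i) (hxu i) hσ
  obtain ⟨C, hC, hCz⟩ := form hD hA hcA hfin h2 hρ hJ hJρ hcc hcm hci hcn (cyc_cj hc hcj hχ) hxc hx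
    hxn
  have hCB : ∀ (B : Type) [CommRing B] [IsLocalRing B] [TopologicalSpace B]
      [IsTopologicalRing B] [Algebra ℤ_[2] B] (φ : A →ₐ[ℤ_[2]] B), Continuous φ → ∀ i j,
      (fun g h => cpr (J.map φ) (bc φ ρ) cj (fun σ t => φ (x i σ t)) (fun σ t => φ (x j σ t)) g h -
        (C.map φ) i j * algebraMap ℤ_[2] B (z₀ g h)) ∈ BN B χ := by
    intro B _ _ _ _ _ φ hφ i j
    refine BN.congr (bc_bn hφ (hCz i j)) fun g h => ?_
    rw [bc_cpr, map_sub, map_mul, Matrix.map_apply, AlgHom.commutes]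
  refine ⟨C, hC, ?_, ?_⟩
  · intro B _ _ _ _ _ _ hB hfB φ hφ u v
    have h2B : (2 : B) ∈ maximalIdeal B := by
      have := map_mem hA hB hφ h2
      rwa [map_ofNat] at this
    obtain ⟨z, h1, h3, h4, h5⟩ := kernelR hE hE0 hE1 hG1 hs hF hχ hD hcc hcm hcn hB hfB h2B
      (bc_rp hA hB hφ hρ) (bc_J φ hJρ) ι₀ (x := fun i σ t => φ (x i σ t))
      (fun i => bc_gr hφ (hxG i)) (hCB B φ hφ) u v
    simp only [hxl] at h3 h4 h5
    exact ⟨z, h1, h3, h4, h5⟩
  · intro B _ _ _ _ _ _ _ hB hfB φ hφ F _ _ _ hind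
    have h2B : (2 : B) ∈ maximalIdeal B := by
      have := map_mem hA hB hφ h2
      rwa [map_ofNat] at this
    obtain ⟨r, hr, z, h3, h4, h5⟩ := kernel (F := F) hE hE0 hE1 hG1 hs hF hχ hD hcc hcm hcn hB hfB
      h2B (bc_rp hA hB hφ hρ) (bc_J φ hJρ) ι₀ (x := fun i σ t => φ (x i σ t))
      (fun i => (bc_gr hφ (hxG i)).cont) (fun i => (bc_gr hφ (hxG i)).mul)
      (fun i => (bc_gr hφ (hxG i)).unr) (hCB B φ hφ)
      (fun i δ => Pool.Agent.H76.PS.em F (fun t => φ (l i δ t)))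
      (fun i δ => by simp only [hxl]) hind
    have hinj := IsFractionRing.injective B F
    refine ⟨r, hr, ?_, ?_, z, h3, h4, h5⟩
    · have e1 : φ C.det = (C.map φ).det := by
        have := RingHom.map_det (φ : A →+* B) C
        exact this
      have e2 : algebraMap B F (C.map φ).det = ((C.map φ).map (algebraMap B F)).det := by
        have := RingHom.map_det (algebraMap B F) (C.map φ)
        exact this
      rw [e1, ← (map_ne_zero_iff (algebraMap B F) hinj), e2]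
      constructor
      · intro h
        have h6 : ((C.map φ).map (algebraMap B F)).rank = k := by omega
        have h7 : Function.Surjective ((C.map φ).map (algebraMap B F)).mulVecLin := by
          rw [← LinearMap.range_eq_top]
          apply Submodule.eq_top_of_finrank_eq
          rw [Module.finrank_fin_fun]
          exact h6
        have h8 := LinearMap.injective_iff_surjective.2 h7
        intro h9
        obtain ⟨w, hw, hw0⟩ := Matrix.exists_mulVec_eq_zero_iff.2 h9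
        exact hw (h8 (by rw [Matrix.mulVecLin_apply, hw0, map_zero]))
      · intro h
        have h6 := Matrix.rank_of_isUnit _ ((Matrix.isUnit_iff_isUnit_det _).2 (isUnit_iff_ne_zero.2 h))
        rw [h6, Fintype.card_fin] at hr
        omega
    · intro h20
      have h2F : (2 : F) ≠ 0 := by
        have := (map_ne_zero_iff _ hinj).2 h20
        rwa [map_ofNat] at this
      have hsk : ((C.map φ).map (algebraMap B F))ᵀ = -((C.map φ).map (algebraMap B F)) := by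
        ext i j
        have := congrFun (congrFun hC i) j
        rw [Matrix.transpose_apply, Matrix.neg_apply] at this
        rw [Matrix.transpose_apply, Matrix.map_apply, Matrix.map_apply, this, Matrix.neg_apply,
          Matrix.map_apply, Matrix.map_apply, map_neg, map_neg]
      have h6 := H91.PS.stEv F h2F k _ hsk
      have h7 := ((C.map φ).map (algebraMap B F)).mulVecLin.finrank_range_add_finrank_ker
      rw [Module.finrank_fin_fun] at h7
      have h8 : ((C.map φ).map (algebraMap B F)).rank +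
          Module.finrank F (LinearMap.ker ((C.map φ).map (algebraMap B F)).mulVecLin) = k := h7
      have h9 : r = Module.finrank F (LinearMap.ker ((C.map φ).map (algebraMap B F)).mulVecLin) := by
        omega
      rw [h9]
      exact h6

end Pool.Agent.H11.FM
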