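import Pool.Agent.H11.FM.LG

/-!
# The skew-symmetric matrix of a family
-/

set_option autoImplicit false
set_option linter.unusedSectionVars false

namespace Pool.Agent.H11.FM

open Pool.Agent.Y715.Gi (QB KK GK)
open Pool.Agent.Z384 (II DD DDs Fld)
open Pool.Agent.H76.PS IsLocalRing Filter Topology
open Pool.Agent.K7
open Matrix

variable {s : QB}

section pairing

variable {A : Type} [CommRing A] [Algebra ℤ_[2] A] {n : ℕ}
  {ρ : GK s →* GL (Fin n) A} {J : Matrix (Fin n) (Fin n) A} {χ : GK s → ℤ_[2]}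
  {cj : GK s → GK s}

lemma dot_tr (R : Matrix (Fin n) (Fin n) A) (u w : Fin n → A) :
    (R *ᵥ u) ⬝ᵥ w = u ⬝ᵥ (Rᵀ *ᵥ w) := by
  rw [Matrix.dotProduct_mulVec, Matrix.vecMul_transpose]

lemma pair_aux (R R' : Matrix (Fin n) (Fin n) A) (u v : Fin n → A) :
    (R *ᵥ u) ⬝ᵥ (J *ᵥ (R' *ᵥ v)) = u ⬝ᵥ ((Rᵀ * J * R') *ᵥ v) := by
  rw [dot_tr, Matrix.mulVec_mulVec, Matrix.mulVec_mulVec]

lemma dot_sym (hJ : J.IsSymm) (u v : Fin n → A) : u ⬝ᵥ (J *ᵥ v) = v ⬝ᵥ (J *ᵥ u) := by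
  rw [dotProduct_comm, dot_tr, hJ.eq]

lemma cpr_coc (hJρ : ∀ σ, (ρ σ : Matrix (Fin n) (Fin n) A)ᵀ * J * (ρ (cj σ) : Matrix _ _ A) = χ σ • J)
    (hcm : ∀ σ τ, cj (σ * τ) = cj σ * cj τ) {x y : GK s → Fin n → A}
    (hx : ∀ σ τ, x (σ * τ) = x σ + (ρ σ : Matrix (Fin n) (Fin n) A) *ᵥ x τ)
    (hy : ∀ σ τ, y (σ * τ) = y σ + (ρ σ : Matrix (Fin n) (Fin n) A) *ᵥ y τ) (g h k : GK s) :
    χ g • cpr J ρ cj x y h k - cpr J ρ cj x y (g * h) k + cpr J ρ cj x y g (h * k) -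
      cpr J ρ cj x y g h = 0 := by
  have e1 : cpr J ρ cj x y (g * h) k = x g ⬝ᵥ (J *ᵥ ((ρ (cj g) : Matrix (Fin n) (Fin n) A) *ᵥ
      ((ρ (cj h) : Matrix (Fin n) (Fin n) A) *ᵥ y (cj k)))) + χ g • cpr J ρ cj x y h k := by
    unfold cpr
    rw [hx, hcm, map_mul, Units.val_mul, ← Matrix.mulVec_mulVec, add_dotProduct, pair_aux, hJρ,
      Matrix.smul_mulVec, dotProduct_smul]
  have e2 : cpr J ρ cj x y g (h * k) = cpr J ρ cj x y g h +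
      x g ⬝ᵥ (J *ᵥ ((ρ (cj g) : Matrix (Fin n) (Fin n) A) *ᵥ
      ((ρ (cj h) : Matrix (Fin n) (Fin n) A) *ᵥ y (cj k)))) := by
    unfold cpr
    rw [hcm, hy, Matrix.mulVec_add, Matrix.mulVec_add, dotProduct_add]
  rw [e1, e2]
  ring

lemma cpr_skew (hJ : J.IsSymm)
    (hJρ : ∀ σ, (ρ σ : Matrix (Fin n) (Fin n) A)ᵀ * J * (ρ (cj σ) : Matrix _ _ A) = χ σ • J)
    (hcm : ∀ σ τ, cj (σ * τ) = cj σ * cj τ) (hcc : ∀ σ, cj (cj σ) = σ) {x y : GK s → Fin n → A}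
    (hx : ∀ σ τ, x (σ * τ) = x σ + (ρ σ : Matrix (Fin n) (Fin n) A) *ᵥ x τ)
    (hy : ∀ σ τ, y (σ * τ) = y σ + (ρ σ : Matrix (Fin n) (Fin n) A) *ᵥ y τ) (g h : GK s) :
    cpr J ρ cj y x g h + cpr J ρ cj x y (cj g) (cj h) =
      (-(y g ⬝ᵥ (J *ᵥ x (cj g)))) + χ g • (-(y h ⬝ᵥ (J *ᵥ x (cj h)))) -
        (-(y (g * h) ⬝ᵥ (J *ᵥ x (cj (g * h))))) := by
  have e1 : y (g * h) ⬝ᵥ (J *ᵥ x (cj (g * h))) = y g ⬝ᵥ (J *ᵥ x (cj g)) + cpr J ρ cj y x g h +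
      cpr J ρ cj x y (cj g) (cj h) + χ g • (y h ⬝ᵥ (J *ᵥ x (cj h))) := by
    rw [hcm, hx, hy, add_dotProduct, Matrix.mulVec_add, dotProduct_add, dotProduct_add, pair_aux,
      hJρ, Matrix.smul_mulVec, dotProduct_smul]
    unfold cpr
    rw [hcc, hcc, dot_sym hJ (x (cj g))]
    ring
  rw [e1, smul_neg]
  ring

end pairing

section form

variable {A : Type} [CommRing A] [IsLocalRing A] [IsNoetherianRing A] [TopologicalSpace A]
  [IsTopologicalRing A] [Algebra ℤ_[2] A] {n : ℕ}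
  {ρ : GK s →* GL (Fin n) A} {J : Matrix (Fin n) (Fin n) A} {χ : GK s → ℤ_[2]}
  {cj : GK s → GK s} {z₀ : GK s → GK s → ℤ_[2]}

/-- the cup products are invariant cocycles -/
lemma za_cpr (hA : IsAdic (maximalIdeal A)) (hfin : Finite (ResidueField A))
    (h2 : (2 : A) ∈ maximalIdeal A) (hρ : Rp ρ)
    (hJρ : ∀ σ, (ρ σ : Matrix (Fin n) (Fin n) A)ᵀ * J * (ρ (cj σ) : Matrix _ _ A) = χ σ • J)
    (hcc : Continuous cj) (hcm : ∀ σ τ, cj (σ * τ) = cj σ * cj τ) (hcn : ∀ σ ∈ Nf s, cj σ ∈ Nf s)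
    {x y : GK s → Fin n → A} (hxc : Continuous x) (hyc : Continuous y)
    (hx : ∀ σ τ, x (σ * τ) = x σ + (ρ σ : Matrix (Fin n) (Fin n) A) *ᵥ x τ)
    (hy : ∀ σ τ, y (σ * τ) = y σ + (ρ σ : Matrix (Fin n) (Fin n) A) *ᵥ y τ)
    (hxn : ∀ σ ∈ Nf s, x σ = 0) (hyn : ∀ σ ∈ Nf s, y σ = 0) (m : A) :
    ZA χ (fun g h => m * cpr J ρ cj x y g h) := by
  refine ⟨?_, fun σ τ n hn => ?_, fun σ τ n hn => ?_, fun g h k => ?_⟩
  · have h3 : Continuous fun v : GK s × GK s => (ρ (cj v.1) : Matrix (Fin n) (Fin n) A) :=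
      continuous_matrix fun a c => (hρ.cont a c).comp (hcc.comp continuous_fst)
    have h4 : Continuous fun v : GK s × GK s => y (cj v.2) := hyc.comp (hcc.comp continuous_snd)
    have h5 : Continuous fun v : GK s × GK s => x v.1 := hxc.comp continuous_fst
    exact continuous_const.mul (h5.dotProduct (continuous_const.matrix_mulVec (h3.matrix_mulVec h4)))
  · unfold cpr
    rw [hx, hxn n hn, Matrix.mulVec_zero, add_zero, hcm, map_mul, rp_Nf hA hfin h2 hρ (hcn n hn),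
      mul_one]
  · unfold cpr
    rw [hcm, hy, hyn _ (hcn n hn), Matrix.mulVec_zero, add_zero]
  · have h3 := congrArg (fun t => m * t) (cpr_coc hJρ hcm hx hy g h k)
    simp only [mul_zero, mul_sub, mul_add, mul_smul_comm] at h3
    exact h3

/-- **The skew-symmetric matrix.** -/
theorem form (hD : DatN χ cj z₀) (hA : IsAdic (maximalIdeal A))
    (hc : IsAdicComplete (maximalIdeal A) A) (hfin : Finite (ResidueField A))
    (h2 : (2 : A) ∈ maximalIdeal A) (hρ : Rp ρ) (hJ : J.IsSymm)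
    (hJρ : ∀ σ, (ρ σ : Matrix (Fin n) (Fin n) A)ᵀ * J * (ρ (cj σ) : Matrix _ _ A) = χ σ • J)
    (hcc : Continuous cj) (hcm : ∀ σ τ, cj (σ * τ) = cj σ * cj τ) (hci : ∀ σ, cj (cj σ) = σ)
    (hcn : ∀ σ ∈ Nf s, cj σ ∈ Nf s) (hχc : ∀ σ, χ (cj σ) = χ σ)
    {k : ℕ} {x : Fin k → GK s → Fin n → A} (hxc : ∀ i, Continuous (x i))
    (hx : ∀ i σ τ, x i (σ * τ) = x i σ + (ρ σ : Matrix (Fin n) (Fin n) A) *ᵥ x i τ)
    (hxn : ∀ i, ∀ σ ∈ Nf s, x i σ = 0) :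
    ∃ C : Matrix (Fin k) (Fin k) A, Cᵀ = -C ∧ ∀ i j,
      (fun g h => cpr J ρ cj (x i) (x j) g h - C i j * algebraMap ℤ_[2] A (z₀ g h)) ∈ BN A χ := by
  have hZ : ∀ i j, ZA χ (fun g h => cpr J ρ cj (x i) (x j) g h) := fun i j => by
    have := za_cpr hA hfin h2 hρ hJρ hcc hcm hcn (hxc i) (hxc j) (hx i) (hx j) (hxn i) (hxn j) 1
    simpa only [one_mul] using this
  choose C hC using fun i j => hD.gen A hA hc h2 hfin _ (hZ i j)
  refine ⟨Matrix.of C, ?_, hC⟩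
  ext i j
  rw [Matrix.transpose_apply, Matrix.neg_apply, Matrix.of_apply, Matrix.of_apply]
  -- `z_ji + z_ij^c` is a coboundary
  have h3 : (fun g h => cpr J ρ cj (x j) (x i) g h + cpr J ρ cj (x i) (x j) (cj g) (cj h)) ∈
      BN A χ := by
    refine ⟨fun g => -(x j g ⬝ᵥ (J *ᵥ x i (cj g))), ?_, fun σ n hn => ?_, fun g h =>
      cpr_skew hJ hJρ hcm hci (hx i) (hx j) g h⟩
    · exact ((hxc j).dotProduct (continuous_const.matrix_mulVec ((hxc i).comp hcc))).neg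
    · beta_reduce
      rw [hx, hxn j n hn, Matrix.mulVec_zero, add_zero, hcm, hx, hxn i _ (hcn n hn),
        Matrix.mulVec_zero, add_zero]
  have h4 := BN.conj hcc hcm hcn hχc (hC i j)
  have h5 := BN.mul (hD.inv A hA h2) (C i j)
  have h6 := BN.sub (BN.sub (BN.sub h3 (hC j i)) h4) h5
  have h7 := hD.uniq A hA h2 hfin (C j i + C i j) (BN.congr h6 fun x y => by ring)
  exact eq_neg_of_add_eq_zero_left h7

end form

end Pool.Agent.H11.FM
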