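import Pool.Agent.H11.FM.Form

/-!
# The Selmer group is the kernel of the skew-symmetric matrix
-/

set_option autoImplicit false
set_option linter.unusedSectionVars false

namespace Pool.Agent.H11.FM

open Pool.Agent.Y715.Gi (QB KK GK)
open Pool.Agent.Z384
open Pool.Agent.H76.PS IsLocalRing Filter Topology
open Pool.Agent.K7
open Matrix

variable {s : QB} {A : Type} [CommRing A] [IsDomain A] [IsLocalRing A] [IsNoetherianRing A]
  [TopologicalSpace A] [IsTopologicalRing A] [Algebra ℤ_[2] A]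
  {F : Type} [Field F] [Algebra A F] [IsFractionRing A F] {n : ℕ}

/-- **The Selmer group is the kernel of the skew-symmetric matrix.** -/
theorem kernel (hE : StE) (hE0 : StE0) (hE1 : StE1) (hG1 : StG1)
    {d : ℕ} (hs : s ^ 2 = -(d : QB)) (hF : Fld d) {χ : GK s → ℤ_[2]} (hχ : IsCyc χ)
    {cj : GK s → GK s} {z₀ : GK s → GK s → ℤ_[2]} (hD : DatN χ cj z₀)
    (hcc : Continuous cj) (hcm : ∀ σ τ, cj (σ * τ) = cj σ * cj τ)
    (hcn : ∀ σ ∈ Nf s, cj σ ∈ Nf s)
    (hA : IsAdic (maximalIdeal A)) (hfin : Finite (ResidueField A)) (h2 : (2 : A) ∈ maximalIdeal A)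
    {ρ : GK s →* GL (Fin n) A} (hρ : Rp ρ) {J : Matrix (Fin n) (Fin n) A}
    (hJρ : ∀ σ, (ρ σ : Matrix (Fin n) (Fin n) A)ᵀ * J * (ρ (cj σ) : Matrix _ _ A) = χ σ • J)
    (ι₀ : QB →ₐ[ℚ] PadicAlgCl 2) {k : ℕ} {x : Fin k → GK s → Fin n → A}
    (hxc : ∀ i, Continuous (x i))
    (hx : ∀ i σ τ, x i (σ * τ) = x i σ + (ρ σ : Matrix (Fin n) (Fin n) A) *ᵥ x i τ)
    (hxu : ∀ i, ∀ (p : ℕ) [Fact p.Prime] (ι : QB →ₐ[ℚ] PadicAlgCl p), p ≠ 2 →
      ∀ σ ∈ (II ι : Set (GK s)), x i σ = 0)
    {C : Matrix (Fin k) (Fin k) A}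
    (hC : ∀ i j, (fun g h => cpr J ρ cj (x i) (x j) g h - C i j * algebraMap ℤ_[2] A (z₀ g h)) ∈
      BN A χ)
    (l : Fin k → DDs (s := s) ι₀ → Fin n → F)
    (hl : ∀ i (δ : DDs (s := s) ι₀), em F (x i δ) = l i δ)
    (hind : ∀ a : Fin k → F, (∃ v : Fin n → F, ∀ δ : DDs (s := s) ι₀,
      ∑ i, a i • l i δ = act F ρ (δ : GK s) v - v) → a = 0) :
    ∃ r, r + (C.map (algebraMap A F)).rank = k ∧ ∃ z : Fin r → GK s → Fin n → F,
      (∀ t, Sel (J.map (algebraMap A F)) ρ χ cj ι₀ l (z t)) ∧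
      (∀ a : Fin r → F, (∃ v : Fin n → F, ∀ σ, ∑ t, a t • z t σ = act F ρ σ v - v) → a = 0) ∧
      ∀ y, Sel (J.map (algebraMap A F)) ρ χ cj ι₀ l y → ∃ (a : Fin r → F) (v : Fin n → F),
        ∀ σ, y σ = ∑ t, a t • z t σ + (act F ρ σ v - v) := by
  classical
  have hinj := IsFractionRing.injective A F
  set JF : Matrix (Fin n) (Fin n) F := J.map (algebraMap A F) with hJF
  have hxn : ∀ i, ∀ σ ∈ Nf s, x i σ = 0 := fun i σ hσ =>
    coc_Nf hA hfin h2 hρ (hxc i) (hx i) (hxu i) hσ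
  have hx1 : ∀ i, x i 1 = 0 := fun i => hxn i 1 (one_mem _)
  have hJ : ∀ σ, ((ρ σ : Matrix (Fin n) (Fin n) A).map (algebraMap A F))ᵀ * JF *
      ((ρ (cj σ) : Matrix (Fin n) (Fin n) A).map (algebraMap A F)) = chF A F χ σ • JF := by
    intro σ
    have h1 := congrArg (fun M : Matrix (Fin n) (Fin n) A => M.map (algebraMap A F)) (hJρ σ)
    beta_reduce at h1
    rw [Matrix.map_mul, Matrix.map_mul, Matrix.transpose_map] at h1
    rw [h1]
    ext i j
    rw [Matrix.map_apply, Matrix.smul_apply, Algebra.smul_def, map_mul]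
    rfl
  have hpair : ∀ u w : Fin n → A, algebraMap A F (u ⬝ᵥ (J *ᵥ w)) = em F u ⬝ᵥ (JF *ᵥ em F w) := by
    intro u w
    simp only [dotProduct, mulVec, map_sum, map_mul, Pool.Agent.H76.PS.em, hJF, Matrix.map_apply]
  have hLC : ∀ i, LC ρ ι₀ (l i) := by
    intro i
    refine ⟨fun δ δ' => ?_, ⟨1, fun δ => x i δ, by simp, (hxc i).comp continuous_subtype_val,
      fun δ t => ?_⟩⟩
    · rw [← hl, ← hl, ← hl, Subgroup.coe_mul, hx, act_em]
      funext t
      exact map_add _ _ _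
    · rw [map_one, one_mul, ← hl]
      rfl
  -- the cocycles with values in `F ^ n`
  set X : Fin k → GK s → Fin n → F := fun j σ => em F (x j σ) with hX
  have hXG : ∀ j, GC ρ (X j) := by
    intro j
    refine ⟨fun σ τ => ?_, ⟨1, x j, by simp, hxc j, fun g i => by rw [map_one, one_mul]; rfl⟩,
      fun p _ ι hp σ hσ => ?_⟩
    · rw [hX]
      beta_reduce
      rw [hx, act_em]
      funext i
      exact map_add _ _ _
    · rw [hX]
      beta_reduce
      rw [hxu j p ι hp σ hσ]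
      funext i
      exact map_zero _
  have hXl : ∀ j (δ : DDs (s := s) ι₀), X j δ = l j δ := hl
  set CF : Matrix (Fin k) (Fin k) F := C.map (algebraMap A F) with hCF
  -- orthogonality of the combinations
  have hkey : ∀ (u : Fin k → F) (i : Fin k),
      Orth JF ρ χ cj ι₀ (l i) (fun σ => ∑ j, u j • X j σ) ↔ (CF *ᵥ u) i = 0 := by
    intro u i
    obtain ⟨q', hq', v', hv'⟩ := scal (A := A) u
    rw [← orth_smul_iff hq']
    set z : GK s → Fin n → A := fun σ => ∑ j, v' j • x j σ with hz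
    have e1 : (fun σ => algebraMap A F q' • ∑ j, u j • X j σ) = fun σ => em F (z σ) := by
      funext σ t
      show (algebraMap A F q' • ∑ j, u j • X j σ) t = algebraMap A F ((∑ j, v' j • x j σ) t)
      rw [Pi.smul_apply, Finset.sum_apply, Finset.sum_apply, map_sum, smul_eq_mul, Finset.mul_sum]
      refine Finset.sum_congr rfl fun j _ => ?_
      rw [Pi.smul_apply, Pi.smul_apply, smul_eq_mul, smul_eq_mul, map_mul, hv', mul_assoc]
      rfl
    rw [e1]
    have hzc : Continuous z := continuous_finsetSum _ fun j _ => (hxc j).const_smul (v' j)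
    have hzm : ∀ σ τ, z (σ * τ) = z σ + (ρ σ : Matrix (Fin n) (Fin n) A) *ᵥ z τ := by
      intro σ τ
      rw [hz]
      beta_reduce
      rw [Matrix.mulVec_sum, ← Finset.sum_add_distrib]
      refine Finset.sum_congr rfl fun j _ => ?_
      rw [Matrix.mulVec_smul, ← smul_add, hx]
    have hzn : ∀ σ ∈ Nf s, z σ = 0 := by
      intro σ hσ
      exact Finset.sum_eq_zero fun j _ => by rw [hxn j σ hσ, smul_zero]
    have hlin : ∀ g h, cpr J ρ cj (x i) z g h = ∑ j, v' j * cpr J ρ cj (x i) (x j) g h := by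
      intro g h
      unfold cpr
      rw [hz]
      beta_reduce
      rw [Matrix.mulVec_sum, Matrix.mulVec_sum, dotProduct_sum]
      refine Finset.sum_congr rfl fun j _ => ?_
      rw [Matrix.mulVec_smul, Matrix.mulVec_smul, dotProduct_smul, smul_eq_mul]
    have hcl : (fun g h => cpr J ρ cj (x i) z g h -
        (C *ᵥ v') i * algebraMap ℤ_[2] A (z₀ g h)) ∈ BN A χ := by
      refine BN.congr (BN.sum Finset.univ (fun j g h => v' j * (cpr J ρ cj (x i) (x j) g h -
        C i j * algebraMap ℤ_[2] A (z₀ g h))) fun j _ => BN.mul (hC i j) (v' j)) fun g h => ?_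
      rw [hlin]
      have h4 : (C *ᵥ v') i = ∑ j, C i j * v' j := rfl
      rw [h4, Finset.sum_mul, ← Finset.sum_sub_distrib]
      exact Finset.sum_congr rfl fun j _ => by ring
    have hZA := za_cpr hA hfin h2 hρ hJρ hcc hcm hcn (hxc i) hzc (hx i) hzm (hxn i) hzn
    have key : ∀ δ δ' : DDs (s := s) ι₀, algebraMap A F (cpr J ρ cj (x i) z δ δ') =
        l i δ ⬝ᵥ (JF *ᵥ act F ρ (cj δ) (em F (z (cj δ')))) := by
      intro δ δ'
      unfold cpr
      rw [hpair, hl, ← act_em]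
    have e2 : algebraMap A F ((C *ᵥ v') i) = algebraMap A F q' * (CF *ᵥ u) i := by
      simp only [mulVec, dotProduct, map_sum, map_mul, hv', hCF, Matrix.map_apply, Finset.mul_sum]
      refine Finset.sum_congr rfl fun j _ => ?_
      ring
    constructor
    · rintro ⟨f, ⟨m, f', hm, hf', hmf⟩, hf⟩
      have hm0 : m ≠ 0 := fun h => hm (by rw [h, map_zero])
      have h5 : (fun g h => m * cpr J ρ cj (x i) z g h) ∈ BN A χ := by
        refine lg hE hE0 hE1 hG1 hs hF ι₀ hA h2 hχ (hZA m) ?_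
          ⟨fun δ => f' δ, hf', fun δ δ' => hinj ?_⟩
        · unfold cpr
          rw [hx1, zero_dotProduct, mul_zero]
        · rw [map_mul, key, hf, Algebra.smul_def]
          simp only [map_sub, map_add]
          rw [map_mul (algebraMap A F) (algebraMap ℤ_[2] A (χ δ)), ← hmf, ← hmf, ← hmf]
          unfold chF
          ring
      have h6 := BN.sub h5 (BN.mul hcl m)
      have h7 := hD.uniq A hA h2 hfin (m * (C *ᵥ v') i) (BN.congr h6 fun x y => by ring)
      have h8 : (C *ᵥ v') i = 0 := (mul_eq_zero.1 h7).resolve_left hm0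
      rw [h8, map_zero] at e2
      exact (mul_eq_zero.1 e2.symm).resolve_left hq'
    · intro h
      rw [h, mul_zero] at e2
      have h8 : (C *ᵥ v') i = 0 := (map_eq_zero_iff _ hinj).1 e2
      rw [h8] at hcl
      obtain ⟨f, hf, -, hfz⟩ := hcl
      refine ⟨fun δ => algebraMap A F (f δ), ⟨1, fun δ => f δ, by simp,
        hf.comp continuous_subtype_val, fun δ => by rw [map_one, one_mul]⟩, fun δ δ' => ?_⟩
      have h1 := congrArg (algebraMap A F) (hfz δ δ')
      beta_reduce at h1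
      rw [zero_mul, sub_zero, key, Algebra.smul_def] at h1
      simp only [map_sub, map_add] at h1
      rw [map_mul (algebraMap A F) (algebraMap ℤ_[2] A (χ δ))] at h1
      exact h1
  have hcob : ∀ (v : Fin n → F) (i : Fin k), Orth JF ρ χ cj ι₀ (l i) (fun σ => act F ρ σ v - v) :=
    fun v i => Orth.cob hJ hρ.cont hcc hcm (hLC i) v
  -- every element of the Selmer group is a combination and a coboundary
  have hspan : ∀ y, Sel JF ρ χ cj ι₀ l y → ∃ (u : Fin k → F) (v : Fin n → F), CF *ᵥ u = 0 ∧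
      ∀ σ, y σ = ∑ j, u j • X j σ + (act F ρ σ v - v) := by
    intro y hy
    obtain ⟨u, v, hev⟩ := hy.loc
    have h1 : GC ρ (fun σ => y σ - ∑ j, u j • X j σ) := hy.coc.sub (GC.sum hXG u)
    have h2 : ∀ σ, y σ - ∑ j, u j • X j σ = act F ρ σ v - v := by
      refine inj_glob hE0 hs hF hA hfin h2 hρ ι₀ h1 fun δ hδ => ?_
      have h3 := hev ⟨δ, hδ⟩
      have h4 : ∑ j, u j • X j δ = ∑ i, u i • l i ⟨δ, hδ⟩ :=
        Finset.sum_congr rfl fun j _ => by
          rw [show X j δ = X j ((⟨δ, hδ⟩ : DDs (s := s) ι₀) : GK s) from rfl, hXl]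
      show y δ - ∑ j, u j • X j δ = act F ρ δ v - v
      rw [h4, show y δ = y ((⟨δ, hδ⟩ : DDs (s := s) ι₀) : GK s) from rfl, h3, add_sub_cancel_left]
    refine ⟨u, v, funext fun i => ?_, fun σ => by rw [← h2]; abel⟩
    rw [Pi.zero_apply, ← hkey u i]
    have h3 := (hy.orth i).add ((hcob v i).smul (-1))
    have h4 : (fun σ => y σ + (-1 : F) • (act F ρ σ v - v)) = fun σ => ∑ j, u j • X j σ := by
      funext σ
      rw [← h2]
      rw [neg_smul, one_smul]
      abel
    rwa [h4] at h3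
  have hsel : ∀ u : Fin k → F, CF *ᵥ u = 0 → Sel JF ρ χ cj ι₀ l (fun σ => ∑ j, u j • X j σ) := by
    intro u hu
    refine ⟨GC.sum hXG u, ⟨u, 0, fun δ => ?_⟩, fun i => (hkey u i).2 (congrFun hu i)⟩
    rw [map_zero, sub_zero, add_zero]
    refine Finset.sum_congr rfl fun j _ => ?_
    rw [hXl]
  -- the kernel
  set Kr := LinearMap.ker CF.mulVecLin with hKr
  have hKm : ∀ u : Fin k → F, u ∈ Kr ↔ CF *ᵥ u = 0 := fun u => by
    rw [hKr, LinearMap.mem_ker, Matrix.mulVecLin_apply]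
  let E := Module.finBasis F Kr
  refine ⟨Module.finrank F Kr, ?_, fun t σ => ∑ j, (E t : Fin k → F) j • X j σ,
    fun t => hsel _ ((hKm _).1 (E t).2), fun e he => ?_, fun y hy => ?_⟩
  · have h3 := CF.mulVecLin.finrank_range_add_finrank_ker
    rw [Module.finrank_fin_fun] at h3
    rw [add_comm]
    exact h3
  · obtain ⟨v, hv⟩ := he
    have h1 : ∀ σ, ∑ t, e t • ∑ j, (E t : Fin k → F) j • X j σ =
        ∑ j, ((∑ t, e t • (E t : Fin k → F)) j) • X j σ := by
      intro σ
      simp only [Finset.smul_sum, Finset.sum_apply, Pi.smul_apply, smul_eq_mul, Finset.sum_smul,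
        smul_smul]
      exact Finset.sum_comm
    have h3 := hind (fun j => (∑ t, e t • (E t : Fin k → F)) j) ⟨v, fun δ => by
      rw [← hv δ, h1]
      exact Finset.sum_congr rfl fun j _ => by rw [hXl]⟩
    have h3' : (∑ t, e t • (E t : Fin k → F)) = 0 := h3
    have h4 : ∑ t, e t • E t = 0 := by
      apply Subtype.ext
      rw [Submodule.coe_sum]
      simpa using h3'
    exact funext fun t => Fintype.linearIndependent_iff.1 E.linearIndependent e h4 t
  · obtain ⟨u, v, hu, huv⟩ := hspan y hy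
    refine ⟨fun t => E.repr ⟨u, (hKm u).2 hu⟩ t, v, fun σ => ?_⟩
    rw [huv]
    congr 1
    have h1 := E.sum_repr ⟨u, (hKm u).2 hu⟩
    have h2 : u = ∑ t, E.repr ⟨u, (hKm u).2 hu⟩ t • (E t : Fin k → F) := by
      have := congrArg Subtype.val h1
      rw [Submodule.coe_sum] at this
      exact this.symm
    have h3 : ∀ e : Fin (Module.finrank F Kr) → F, ∑ t, e t • ∑ j, (E t : Fin k → F) j • X j σ =
        ∑ j, ((∑ t, e t • (E t : Fin k → F)) j) • X j σ := by
      intro e
      simp only [Finset.smul_sum, Finset.sum_apply, Pi.smul_apply, smul_eq_mul, Finset.sum_smul,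
        smul_smul]
      exact Finset.sum_comm
    rw [h3, ← h2]

end Pool.Agent.H11.FM
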