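import Pool.Agent.H11.FM.Ker

/-!
# The Selmer groups with coefficients in a local ring
-/

set_option autoImplicit false
set_option linter.unusedSectionVars false

namespace Pool.Agent.H11.FM

open Pool.Agent.Y715.Gi (QB KK GK)
open Pool.Agent.Z384
open Pool.Agent.H76.PS IsLocalRing Filter Topology
open Pool.Agent.K7
open Matrix

variable {s : QB} {A : Type} [CommRing A] [IsLocalRing A] [IsNoetherianRing A]
  [TopologicalSpace A] [IsTopologicalRing A] [Algebra ℤ_[2] A] {n : ℕ}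

/-- global cocycles unramified outside two -/
structure GR (ρ : GK s →* GL (Fin n) A) (z : GK s → Fin n → A) : Prop where
  mul : ∀ σ τ, z (σ * τ) = z σ + (ρ σ : Matrix (Fin n) (Fin n) A) *ᵥ z τ
  cont : Continuous z
  unr : ∀ (p : ℕ) [Fact p.Prime] (ι : QB →ₐ[ℚ] PadicAlgCl p), p ≠ 2 →
    ∀ σ ∈ (II ι : Set (GK s)), z σ = 0

/-- the cup product of `l` and of the conjugate of `z` is trivial on the decomposition group -/
def OR (J : Matrix (Fin n) (Fin n) A) (ρ : GK s →* GL (Fin n) A) (χ : GK s → ℤ_[2])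
    (cj : GK s → GK s) (ι₀ : QB →ₐ[ℚ] PadicAlgCl 2) (l : DDs (s := s) ι₀ → Fin n → A)
    (z : GK s → Fin n → A) : Prop :=
  ∃ f : DDs (s := s) ι₀ → A, Continuous f ∧ ∀ δ δ' : DDs (s := s) ι₀,
    l δ ⬝ᵥ (J *ᵥ ((ρ (cj δ) : Matrix (Fin n) (Fin n) A) *ᵥ z (cj δ'))) =
      f δ + χ δ • f δ' - f (δ * δ')

lemma OR.add {J : Matrix (Fin n) (Fin n) A} {ρ : GK s →* GL (Fin n) A} {χ : GK s → ℤ_[2]}
    {cj : GK s → GK s} {ι₀ : QB →ₐ[ℚ] PadicAlgCl 2} {l : DDs (s := s) ι₀ → Fin n → A}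
    {z z' : GK s → Fin n → A} (h : OR J ρ χ cj ι₀ l z) (h' : OR J ρ χ cj ι₀ l z') :
    OR J ρ χ cj ι₀ l (fun σ => z σ + z' σ) := by
  obtain ⟨f, hf, h1⟩ := h
  obtain ⟨g, hg, h2⟩ := h'
  refine ⟨fun x => f x + g x, hf.add hg, fun δ δ' => ?_⟩
  rw [Matrix.mulVec_add, Matrix.mulVec_add, dotProduct_add, h1, h2, smul_add]
  ring

lemma OR.neg {J : Matrix (Fin n) (Fin n) A} {ρ : GK s →* GL (Fin n) A} {χ : GK s → ℤ_[2]}
    {cj : GK s → GK s} {ι₀ : QB →ₐ[ℚ] PadicAlgCl 2} {l : DDs (s := s) ι₀ → Fin n → A}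
    {z : GK s → Fin n → A} (h : OR J ρ χ cj ι₀ l z) : OR J ρ χ cj ι₀ l (fun σ => -z σ) := by
  obtain ⟨f, hf, h1⟩ := h
  refine ⟨fun x => -f x, hf.neg, fun δ δ' => ?_⟩
  rw [Matrix.mulVec_neg, Matrix.mulVec_neg, dotProduct_neg, h1, smul_neg]
  ring

lemma OR.cob {J : Matrix (Fin n) (Fin n) A} {ρ : GK s →* GL (Fin n) A} {χ : GK s → ℤ_[2]}
    {cj : GK s → GK s} {ι₀ : QB →ₐ[ℚ] PadicAlgCl 2} {l : DDs (s := s) ι₀ → Fin n → A}
    (hJρ : ∀ σ, (ρ σ : Matrix (Fin n) (Fin n) A)ᵀ * J * (ρ (cj σ) : Matrix _ _ A) = χ σ • J)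
    (hρc : ∀ i j, Continuous fun σ => (ρ σ : Matrix (Fin n) (Fin n) A) i j)
    (hcc : Continuous cj) (hcm : ∀ σ τ, cj (σ * τ) = cj σ * cj τ) (hlc : Continuous l)
    (hl : ∀ δ δ', l (δ * δ') = l δ + (ρ (δ : GK s) : Matrix (Fin n) (Fin n) A) *ᵥ l δ')
    (v : Fin n → A) :
    OR J ρ χ cj ι₀ l (fun σ => (ρ σ : Matrix (Fin n) (Fin n) A) *ᵥ v - v) := by
  refine ⟨fun δ => -(l δ ⬝ᵥ (J *ᵥ ((ρ (cj δ) : Matrix (Fin n) (Fin n) A) *ᵥ v))), ?_,
    fun δ δ' => ?_⟩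
  · have h3 : Continuous fun v : DDs (s := s) ι₀ => (ρ (cj v) : Matrix (Fin n) (Fin n) A) :=
      continuous_matrix fun a c => (hρc a c).comp (hcc.comp continuous_subtype_val)
    exact (hlc.dotProduct (continuous_const.matrix_mulVec (h3.matrix_mulVec continuous_const))).neg
  · have e1 : (ρ (cj ((δ * δ' : DDs (s := s) ι₀) : GK s)) : Matrix (Fin n) (Fin n) A) *ᵥ v =
        (ρ (cj δ) : Matrix (Fin n) (Fin n) A) *ᵥ ((ρ (cj δ') : Matrix (Fin n) (Fin n) A) *ᵥ v) := by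
      rw [Subgroup.coe_mul, hcm, map_mul, Units.val_mul, Matrix.mulVec_mulVec]
    beta_reduce
    rw [hl, e1, Matrix.mulVec_sub, Matrix.mulVec_sub, dotProduct_sub, add_dotProduct, pair_aux, hJρ,
      Matrix.smul_mulVec, dotProduct_smul, smul_neg]
    ring

/-- a global cocycle is determined by its restriction -/
lemma inj_R (hE0 : StE0) (hE1 : StE1) {d : ℕ} (hs : s ^ 2 = -(d : QB)) (hF : Fld d)
    (hA : IsAdic (maximalIdeal A)) (hfin : Finite (ResidueField A)) (h2 : (2 : A) ∈ maximalIdeal A)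
    {ρ : GK s →* GL (Fin n) A} (hρ : Rp ρ) (ι₀ : QB →ₐ[ℚ] PadicAlgCl 2)
    {z z' : GK s → Fin n → A} (hz : GR ρ z) (hz' : GR ρ z')
    (h : ∀ δ : DDs (s := s) ι₀, z δ = z' δ) : z = z' := by
  obtain ⟨r, hr, -, hrr⟩ := hE1 s d hs hF ι₀
  have hD : IsCompact (DDs (s := s) ι₀ : Set (GK s)) := by
    rw [← hrr, MonoidHom.coe_range]
    exact isCompact_range hr
  have hn : ∀ y : GK s → Fin n → A, GR ρ y → ∀ σ ∈ Nf s, y σ = 0 := fun y hy σ hσ =>
    coc_Nf hA hfin h2 hρ hy.cont hy.mul hy.unr hσ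
  funext σ
  obtain ⟨δ, hδ, hδσ⟩ := H91.PS.surjD hD (fun U hU hN g => (hE0 s d hs hF).2.2.2.2 ι₀ U hU hN g) σ
  have e : σ = δ * (δ⁻¹ * σ) := by group
  rw [e, hz.mul, hz'.mul, hn z hz _ hδσ, hn z' hz' _ hδσ]
  have := h ⟨δ, hδ⟩
  rw [this]

/-- **The Selmer group with coefficients in a local ring.** -/
theorem kernelR (hE : StE) (hE0 : StE0) (hE1 : StE1) (hG1 : StG1)
    {d : ℕ} (hs : s ^ 2 = -(d : QB)) (hF : Fld d) {χ : GK s → ℤ_[2]} (hχ : IsCyc χ)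
    {cj : GK s → GK s} {z₀ : GK s → GK s → ℤ_[2]} (hD : DatN χ cj z₀)
    (hcc : Continuous cj) (hcm : ∀ σ τ, cj (σ * τ) = cj σ * cj τ)
    (hcn : ∀ σ ∈ Nf s, cj σ ∈ Nf s)
    (hA : IsAdic (maximalIdeal A)) (hfin : Finite (ResidueField A)) (h2 : (2 : A) ∈ maximalIdeal A)
    {ρ : GK s →* GL (Fin n) A} (hρ : Rp ρ) {J : Matrix (Fin n) (Fin n) A}
    (hJρ : ∀ σ, (ρ σ : Matrix (Fin n) (Fin n) A)ᵀ * J * (ρ (cj σ) : Matrix _ _ A) = χ σ • J)
    (ι₀ : QB →ₐ[ℚ] PadicAlgCl 2) {k : ℕ} {x : Fin k → GK s → Fin n → A} (hx : ∀ i, GR ρ (x i))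
    {C : Matrix (Fin k) (Fin k) A}
    (hC : ∀ i j, (fun g h => cpr J ρ cj (x i) (x j) g h - C i j * algebraMap ℤ_[2] A (z₀ g h)) ∈
      BN A χ) (u : Fin k → A) (v : Fin n → A) :
    ∃ z : GK s → Fin n → A, GR ρ z ∧ (∀ δ : DDs (s := s) ι₀,
        z δ = ∑ i, u i • x i δ + ((ρ (δ : GK s) : Matrix (Fin n) (Fin n) A) *ᵥ v - v)) ∧
      (∀ z', GR ρ z' → (∀ δ : DDs (s := s) ι₀,
        z' δ = ∑ i, u i • x i δ + ((ρ (δ : GK s) : Matrix (Fin n) (Fin n) A) *ᵥ v - v)) → z' = z) ∧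
      ((∀ i, OR J ρ χ cj ι₀ (fun δ => x i δ) z) ↔ C *ᵥ u = 0) := by
  have hxn : ∀ i, ∀ σ ∈ Nf s, x i σ = 0 := fun i σ hσ =>
    coc_Nf hA hfin h2 hρ (hx i).cont (hx i).mul (hx i).unr hσ
  have hx1 : ∀ i, x i 1 = 0 := fun i => hxn i 1 (one_mem _)
  set y : GK s → Fin n → A := fun σ => ∑ j, u j • x j σ with hy
  have hyG : GR ρ y := by
    refine ⟨fun σ τ => ?_, continuous_finsetSum _ fun j _ => (hx j).cont.const_smul (u j),
      fun p _ ι hp σ hσ => Finset.sum_eq_zero fun i _ => by rw [(hx i).unr p ι hp σ hσ, smul_zero]⟩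
    rw [hy]
    beta_reduce
    rw [Matrix.mulVec_sum, ← Finset.sum_add_distrib]
    refine Finset.sum_congr rfl fun j _ => ?_
    rw [Matrix.mulVec_smul, ← smul_add, (hx j).mul]
  have hcG : GR ρ fun σ => (ρ σ : Matrix (Fin n) (Fin n) A) *ᵥ v - v := by
    refine ⟨fun σ τ => ?_, ?_, fun p _ ι hp σ hσ => ?_⟩
    · beta_reduce
      rw [map_mul, Units.val_mul, ← Matrix.mulVec_mulVec, Matrix.mulVec_sub]
      abel
    · have h3 : Continuous fun σ : GK s => (ρ σ : Matrix (Fin n) (Fin n) A) :=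
        continuous_matrix fun a c => hρ.cont a c
      exact (h3.matrix_mulVec continuous_const).sub continuous_const
    · beta_reduce
      rw [hρ.unramified p ι hp σ hσ, Units.val_one, Matrix.one_mulVec, sub_self]
  have hzG : GR ρ fun σ => y σ + ((ρ σ : Matrix (Fin n) (Fin n) A) *ᵥ v - v) := by
    refine ⟨fun σ τ => ?_, hyG.cont.add hcG.cont, fun p _ ι hp σ hσ => ?_⟩
    · beta_reduce
      rw [hyG.mul, hcG.mul, Matrix.mulVec_add]
      abel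
    · beta_reduce
      rw [hyG.unr p ι hp σ hσ, hcG.unr p ι hp σ hσ, add_zero]
  refine ⟨_, hzG, fun δ => rfl, fun z' hz' h => inj_R hE0 hE1 hs hF hA hfin h2 hρ ι₀ hz' hzG h, ?_⟩
  have hlin : ∀ i g h, cpr J ρ cj (x i) y g h = ∑ j, u j * cpr J ρ cj (x i) (x j) g h := by
    intro i g h
    unfold cpr
    rw [hy]
    beta_reduce
    rw [Matrix.mulVec_sum, Matrix.mulVec_sum, dotProduct_sum]
    refine Finset.sum_congr rfl fun j _ => ?_
    rw [Matrix.mulVec_smul, Matrix.mulVec_smul, dotProduct_smul, smul_eq_mul]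
  have hcl : ∀ i, (fun g h => cpr J ρ cj (x i) y g h -
      (C *ᵥ u) i * algebraMap ℤ_[2] A (z₀ g h)) ∈ BN A χ := by
    intro i
    refine BN.congr (BN.sum Finset.univ (fun j g h => u j * (cpr J ρ cj (x i) (x j) g h -
      C i j * algebraMap ℤ_[2] A (z₀ g h))) fun j _ => BN.mul (hC i j) (u j)) fun g h => ?_
    rw [hlin]
    have h4 : (C *ᵥ u) i = ∑ j, C i j * u j := rfl
    rw [h4, Finset.sum_mul, ← Finset.sum_sub_distrib]
    exact Finset.sum_congr rfl fun j _ => by ring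
  have hcob := fun i => OR.cob (l := fun δ : DDs (s := s) ι₀ => x i δ) hJρ hρ.cont hcc hcm
    ((hx i).cont.comp continuous_subtype_val) (fun δ δ' => (hx i).mul δ δ') v
  have hor : ∀ i, OR J ρ χ cj ι₀ (fun δ => x i δ) y ↔ (C *ᵥ u) i = 0 := by
    intro i
    constructor
    · rintro ⟨f, hf, hfz⟩
      have hZA := za_cpr hA hfin h2 hρ hJρ hcc hcm hcn (hx i).cont hyG.cont (hx i).mul hyG.mul
        (hxn i) (fun σ hσ => coc_Nf hA hfin h2 hρ hyG.cont hyG.mul hyG.unr hσ) 1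
      simp only [one_mul] at hZA
      have h5 : (fun g h => cpr J ρ cj (x i) y g h) ∈ BN A χ := by
        refine lg hE hE0 hE1 hG1 hs hF ι₀ hA h2 hχ hZA ?_ ⟨f, hf, hfz⟩
        unfold cpr
        rw [hx1, zero_dotProduct]
      have h6 := BN.sub h5 (hcl i)
      exact hD.uniq A hA h2 hfin ((C *ᵥ u) i) (BN.congr h6 fun x y => by ring)
    · intro h
      have h7 := hcl i
      rw [h] at h7
      obtain ⟨f, hf, -, hfz⟩ := h7
      refine ⟨fun δ => f δ, hf.comp continuous_subtype_val, fun δ δ' => ?_⟩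
      have h1 := hfz δ δ'
      beta_reduce at h1
      rw [zero_mul, sub_zero] at h1
      exact h1
  constructor
  · intro h
    funext i
    rw [Pi.zero_apply, ← hor i]
    have h3 := (h i).add (hcob i).neg
    have h4 : (fun σ => (fun σ => y σ + ((ρ σ : Matrix (Fin n) (Fin n) A) *ᵥ v - v)) σ +
        -((ρ σ : Matrix (Fin n) (Fin n) A) *ᵥ v - v)) = y := by
      funext σ
      beta_reduce
      abel
    rwa [h4] at h3
  · intro h i
    exact ((hor i).2 (congrFun h i)).add (hcob i)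

end Pool.Agent.H11.FM
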