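import Pool.Agent.H11.FM.Dat

/-!
# A two-cocycle which is trivial on the decomposition group is trivial
-/

set_option autoImplicit false
set_option linter.unusedSectionVars false

namespace Pool.Agent.H11.FM

open Pool.Agent.Y715.Gi (QB KK GK)
open Pool.Agent.Z384 (II DD DDs Fld)
open Pool.Agent.H76.PS IsLocalRing Filter Topology
open Pool.Agent.K7
open scoped Pointwise

variable {s : QB}

section cocycle

variable {A : Type} [CommRing A] [IsLocalRing A] [IsNoetherianRing A] [TopologicalSpace A]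
  [IsTopologicalRing A] [Algebra ℤ_[2] A] {χ : GK s → ℤ_[2]} {z : GK s → GK s → A}

lemma z_one_left (hχ : IsChar χ) (hz : ZA χ z) (hz1 : z 1 1 = 0) (w : GK s) : z 1 w = 0 := by
  have h := hz.coc 1 1 w
  rw [hχ.one, one_smul, one_mul, one_mul, hz1] at h
  simpa using h

lemma z_one_right (hχ : IsChar χ) (hz : ZA χ z) (hz1 : z 1 1 = 0) (x : GK s) : z x 1 = 0 := by
  have h := hz.coc x 1 1
  rw [mul_one, mul_one, hz1, smul_zero] at h
  simpa using h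

/-- step 1: the function vanishes on the elements of the kernel -/
lemma step1 (hA : IsAdic (maximalIdeal A)) (h2 : (2 : A) ∈ maximalIdeal A)
    (hχ : IsChar χ) (hz : ZA χ z) (hz1 : z 1 1 = 0)
    {D : Subgroup (GK s)} (hD : IsCompact (D : Set (GK s)))
    (hext : ∀ U : Subgroup (GK s), IsOpen (U : Set (GK s)) → Nf s ≤ U →
      ∀ φ ∈ HS (U ⊓ D : Subgroup (GK s)), ∃ φ' ∈ HS U,
        (∀ σ : U, (σ : GK s) ∈ Nf s → φ' σ = 0) ∧
        ∀ (σ : GK s) (h : σ ∈ U) (h' : σ ∈ U ⊓ D), φ' ⟨σ, h⟩ = φ ⟨σ, h'⟩)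
    {f : D → A} (hf : Continuous f)
    (hfz : ∀ δ δ' : D, z δ δ' = f δ + χ δ • f δ' - f (δ * δ')) (m : ℕ) :
    ∀ δ : D, (δ : GK s) ∈ Nf s → f δ ∈ maximalIdeal A ^ m := by
  have hDc : CompactSpace D := isCompact_iff_compactSpace.1 hD
  induction m with
  | zero => intro δ _; rw [pow_zero, Ideal.one_eq_top]; trivial
  | succ m ih =>
    -- the open sets
    have hO1 : IsOpen {x : GK s | ∀ w, z x w ∈ maximalIdeal A ^ (m + 1)} := by
      have h1 : IsClosed ((fun v : GK s × GK s => z v.1 v.2) ⁻¹'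
          ((maximalIdeal A ^ (m + 1) : Ideal A) : Set A)ᶜ) :=
        (isOpen_pow hA (m + 1)).isClosed_compl.preimage hz.cont
      have h2 := isClosedMap_fst_of_compactSpace _ h1
      rw [← isClosed_compl_iff]
      convert h2 using 1
      ext x
      simp only [Set.mem_compl_iff, Set.mem_ofPred_eq, Set.mem_image, Set.mem_preimage,
        Prod.exists, exists_and_right, exists_eq_right]
      push Not
      rfl
    have hO2 : IsOpen {x : GK s | ∀ h : x ∈ D, f ⟨x, h⟩ ∈ maximalIdeal A ^ m} := by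
      have h1 : IsClosed (f ⁻¹' ((maximalIdeal A ^ m : Ideal A) : Set A)ᶜ) :=
        (isOpen_pow hA m).isClosed_compl.preimage hf
      have h2 : IsClosed ((fun δ : D => (δ : GK s)) ''
          (f ⁻¹' ((maximalIdeal A ^ m : Ideal A) : Set A)ᶜ)) :=
        (h1.isCompact.image continuous_subtype_val).isClosed
      rw [← isClosed_compl_iff]
      convert h2 using 1
      ext x
      constructor
      · intro hx
        have hx' : ¬ ∀ h : x ∈ D, f ⟨x, h⟩ ∈ maximalIdeal A ^ m := hx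
        push Not at hx'
        obtain ⟨h, h'⟩ := hx'
        exact ⟨⟨x, h⟩, h', rfl⟩
      · rintro ⟨⟨y, hy⟩, h', rfl⟩ h
        exact h' (h hy)
    obtain ⟨U, hU, hUO⟩ := H91.PS.exists_te_sub (hO1.inter hO2) (by
      intro x hx
      refine ⟨fun w => ?_, fun h => ih ⟨x, h⟩ hx⟩
      have h1 : z x w = 0 := by
        have := hz.inv1 1 w x hx
        rw [one_mul] at this
        rw [this]
        exact z_one_left hχ hz hz1 w
      rw [h1]
      exact zero_mem _)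
    intro δ hδ
    -- the class
    have hmm : ∀ σ : (U ⊓ D : Subgroup (GK s)), f ⟨σ, σ.2.2⟩ ∈ maximalIdeal A ^ m :=
      fun σ => (hUO σ σ.2.1).2 σ.2.2
    have hlc : IsLocallyConstant fun σ : (U ⊓ D : Subgroup (GK s)) =>
        cl (f ⟨σ, σ.2.2⟩) (hmm σ) := by
      refine cl_lc hA (hf.comp ?_) hmm
      exact Continuous.subtype_mk continuous_subtype_val _
    have hmul : ∀ σ τ : (U ⊓ D : Subgroup (GK s)), cl (f ⟨(σ * τ : (U ⊓ D : Subgroup (GK s))),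
        (σ * τ).2.2⟩) (hmm (σ * τ)) = cl (f ⟨σ, σ.2.2⟩) (hmm σ) + cl (f ⟨τ, τ.2.2⟩) (hmm τ) := by
      intro σ τ
      rw [← cl_add (ha := hmm σ) (hb := hmm τ), cl_eq_iff]
      have h1 := hfz ⟨σ, σ.2.2⟩ ⟨τ, τ.2.2⟩
      have h2' : f ⟨((σ * τ : (U ⊓ D : Subgroup (GK s))) : GK s), (σ * τ).2.2⟩ =
          f (⟨σ, σ.2.2⟩ * ⟨τ, τ.2.2⟩) := rfl
      have e : f ⟨((σ * τ : (U ⊓ D : Subgroup (GK s))) : GK s), (σ * τ).2.2⟩ -
          (f ⟨σ, σ.2.2⟩ + f ⟨τ, τ.2.2⟩) =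
          (χ σ • f ⟨τ, τ.2.2⟩ - f ⟨τ, τ.2.2⟩) - z σ τ := by
        rw [h2']
        have h3 : z σ τ = f ⟨σ, σ.2.2⟩ + χ σ • f ⟨τ, τ.2.2⟩ - f (⟨σ, σ.2.2⟩ * ⟨τ, τ.2.2⟩) := h1
        rw [h3]
        ring
      rw [e]
      exact sub_mem (smul_sub_mem h2 hχ (G := GK s) σ (hmm τ)) ((hUO σ σ.2.1).1 τ)
    have hδU : (δ : GK s) ∈ U := (sInf_le hU : Nf s ≤ U) hδ
    by_contra hcon
    have hne : cl (f δ) (hmm ⟨δ, hδU, δ.2⟩) ≠ 0 := fun h => hcon (cl_eq_zero.1 h)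
    obtain ⟨l, hl⟩ := functional (w_add_self h2) hne
    obtain ⟨φ', hφ', hφN, hφe⟩ := hext U hU.isOpen (sInf_le hU)
      (fun σ : (U ⊓ D : Subgroup (GK s)) => l (cl (f ⟨σ, σ.2.2⟩) (hmm σ))) (by
        refine ⟨hlc.comp l, fun σ τ => ?_⟩
        beta_reduce
        rw [hmul, map_add])
    have h7 := hφe δ hδU ⟨hδU, δ.2⟩
    rw [hφN ⟨δ, hδU⟩ hδ] at h7
    have h8 : (0 : ZMod 2) = 1 := h7.trans hl
    exact absurd h8 (by decide)

/-- step 3 -/
lemma step3 (hA : IsAdic (maximalIdeal A)) (h2 : (2 : A) ∈ maximalIdeal A)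
    (hχ : IsChar χ) (hz : ZA χ z) (hz1 : z 1 1 = 0)
    (hχN : ∀ σ, ∀ τ ∈ Nf s, χ (σ * τ) = χ σ) {D : Subgroup (GK s)}
    (hD : IsCompact (D : Set (GK s)))
    (hd : ∀ U : Subgroup (GK s), IsOpen (U : Set (GK s)) → Nf s ≤ U →
      ∀ g : GK s, ∃ δ ∈ D, δ⁻¹ * g ∈ U)
    (hext : ∀ U : Subgroup (GK s), IsOpen (U : Set (GK s)) → Nf s ≤ U →
      ∀ φ ∈ HS (U ⊓ D : Subgroup (GK s)), ∃ φ' ∈ HS U,
        (∀ σ : U, (σ : GK s) ∈ Nf s → φ' σ = 0) ∧
        ∀ (σ : GK s) (h : σ ∈ U) (h' : σ ∈ U ⊓ D), φ' ⟨σ, h⟩ = φ ⟨σ, h'⟩)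
    {f : D → A} (hf : Continuous f)
    (hfz : ∀ δ δ' : D, z δ δ' = f δ + χ δ • f δ' - f (δ * δ')) : z ∈ BN A χ := by
  have hDc : CompactSpace D := isCompact_iff_compactSpace.1 hD
  have h0 : ∀ δ : D, (δ : GK s) ∈ Nf s → f δ = 0 := fun δ hδ =>
    eq_zero_of_mem fun m => step1 hA h2 hχ hz hz1 hD hext hf hfz m δ hδ
  have h1 : ∀ δ δ' : D, (δ : GK s)⁻¹ * δ' ∈ Nf s → f δ' = f δ := by
    intro δ δ' h
    have e1 := hfz δ (δ⁻¹ * δ')
    rw [h0 (δ⁻¹ * δ') h, smul_zero, add_zero, mul_inv_cancel_left] at e1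
    have e2 : z (δ : GK s) ((δ⁻¹ * δ' : D) : GK s) = 0 := by
      have := hz.inv2 δ 1 ((δ⁻¹ * δ' : D) : GK s) h
      rw [one_mul] at this
      rw [this]
      exact z_one_right hχ hz hz1 δ
    rw [e2] at e1
    exact (sub_eq_zero.1 e1.symm).symm
  choose dl hdl hdl' using H91.PS.surjD hD hd
  have h2 : ∀ (δ : D) (n : GK s), n ∈ Nf s → f ⟨dl (δ * n), hdl _⟩ = f δ := by
    intro δ n hn
    refine h1 δ ⟨dl (δ * n), hdl _⟩ ?_
    have e1 : (δ : GK s)⁻¹ * dl (δ * n) = n * ((dl (δ * n))⁻¹ * (δ * n))⁻¹ := by group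
    show (δ : GK s)⁻¹ * dl (δ * n) ∈ Nf s
    rw [e1]
    exact mul_mem hn (inv_mem (hdl' _))
  have hdec : ∀ g : GK s, g = dl g * ((dl g)⁻¹ * g) := fun g => by group
  refine ⟨fun g => f ⟨dl g, hdl g⟩, ?_, fun g n hn => ?_, ?_⟩
  · rw [continuous_iff_isClosed]
    intro C hC
    have e1 : (fun g => f ⟨dl g, hdl g⟩) ⁻¹' C =
        ((fun δ : D => (δ : GK s)) '' (f ⁻¹' C)) * (Nf s : Set (GK s)) := by
      ext g
      constructor
      · intro hg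
        exact Set.mem_mul.2 ⟨dl g, ⟨⟨dl g, hdl g⟩, hg, rfl⟩, (dl g)⁻¹ * g, hdl' g, (hdec g).symm⟩
      · intro hg
        obtain ⟨x, ⟨δ, hδ, rfl⟩, n, hn, rfl⟩ := Set.mem_mul.1 hg
        show f ⟨dl (δ * n), hdl _⟩ ∈ C
        rw [h2 δ n hn]
        exact hδ
    rw [e1]
    have h3 : IsCompact ((fun δ : D => (δ : GK s)) '' (f ⁻¹' C)) :=
      (hC.preimage hf).isCompact.image continuous_subtype_val
    exact (h3.mul H91.PS.isClosed_Nf.isCompact).isClosed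
  · have e1 : g * n = dl g * (((dl g)⁻¹ * g) * n) := by group
    have e2 := h2 ⟨dl g, hdl g⟩ (((dl g)⁻¹ * g) * n) (mul_mem (hdl' g) hn)
    have e3 : (((⟨dl g, hdl g⟩ : D) : GK s) * (((dl g)⁻¹ * g) * n)) = g * n := e1.symm
    rw [e3] at e2
    exact e2
  · intro x y
    set δ : D := ⟨dl x, hdl x⟩ with hδ
    set δ' : D := ⟨dl y, hdl y⟩ with hδ'
    obtain ⟨n, hn⟩ : ∃ n, n = (dl x)⁻¹ * x := ⟨_, rfl⟩
    obtain ⟨n', hn'⟩ : ∃ n', n' = (dl y)⁻¹ * y := ⟨_, rfl⟩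
    have hnN : n ∈ Nf s := by rw [hn]; exact hdl' x
    have hnN' : n' ∈ Nf s := by rw [hn']; exact hdl' y
    have ex : x = (δ : GK s) * n := by rw [hn]; exact hdec x
    have ey : y = (δ' : GK s) * n' := by rw [hn']; exact hdec y
    have e1 : z x y = z δ δ' := by
      conv_lhs => rw [ex, ey]
      rw [hz.inv1 _ _ n hnN, hz.inv2 _ _ n' hnN']
    have e2 : χ x = χ δ := by
      conv_lhs => rw [ex]
      exact hχN _ n hnN
    have e3 : f ⟨dl (x * y), hdl _⟩ = f (δ * δ') := by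
      have e4 : x * y = ((δ * δ' : D) : GK s) * (((δ' : GK s)⁻¹ * n * δ') * n') := by
        rw [Subgroup.coe_mul]
        conv_lhs => rw [ex, ey]
        group
      have e5 : ((δ' : GK s)⁻¹ * n * δ') * n' ∈ Nf s := by
        refine mul_mem ?_ hnN'
        have := (normal_Nf s).conj_mem n hnN (δ' : GK s)⁻¹
        rwa [inv_inv] at this
      have e6 := h2 (δ * δ') _ e5
      rw [← e4] at e6
      exact e6
    show z x y = f δ + χ x • f δ' - f ⟨dl (x * y), hdl _⟩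
    rw [e1, hfz, e2, e3]

/-- **Local triviality implies global triviality.** -/
theorem lg (hE : StE) (hE0 : StE0) (hE1 : StE1) (hG1 : StG1) {d : ℕ} (hs : s ^ 2 = -(d : QB))
    (hF : Fld d) (ι₀ : QB →ₐ[ℚ] PadicAlgCl 2) (hA : IsAdic (maximalIdeal A))
    (h2 : (2 : A) ∈ maximalIdeal A) (hχ : IsCyc χ) (hz : ZA χ z) (hz1 : z 1 1 = 0)
    (h : ∃ f : DDs (s := s) ι₀ → A, Continuous f ∧ ∀ δ δ' : DDs (s := s) ι₀,
        z δ δ' = f δ + χ δ • f δ' - f (δ * δ')) : z ∈ BN A χ := by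
  obtain ⟨f, hf, hfz⟩ := h
  obtain ⟨hch, hχN⟩ := hG1 s χ hχ
  obtain ⟨ρ, hρ, -, hρr⟩ := hE1 s d hs hF ι₀
  have hD : IsCompact (DDs (s := s) ι₀ : Set (GK s)) := by
    rw [← hρr, MonoidHom.coe_range]
    exact isCompact_range hρ
  exact step3 hA h2 hch hz hz1 hχN hD
    (fun U hU hN g => (hE0 s d hs hF).2.2.2.2 ι₀ U hU hN g) ((hE s d hs hF).2.1 ι₀) hf hfz

end cocycle

end Pool.Agent.H11.FM
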