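import Pool.Agent.H11.FM.Abs

/-!
# The logarithm of a character with values in `ℤ_2` and the basic class
-/

set_option autoImplicit false
set_option linter.unusedSectionVars false

namespace Pool.Agent.H11.FM

open Pool.Agent.H76.PS IsLocalRing Filter Topology
open Pool.Agent.K7.H57.PS (norm_two_pow summable_geo summable_two tendsto_two cont_half toZMod_char
  dvd_of_toZMod toZMod_two)

section log

variable {G : Type} [Group G] [TopologicalSpace G]

/-- the approximations of the logarithm -/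
noncomputable def Tl (t : ℤ_[2]) : ℕ → ℤ_[2]
  | 0 => t
  | n + 1 => Tl t n + 2 ^ (n + 2) * Tl t n ^ 2

lemma Tl_pow {u t : ℤ_[2]} (h : u ^ 2 = 1 + 8 * t) (n : ℕ) :
    u ^ 2 ^ (n + 1) = 1 + 2 ^ (n + 3) * Tl t n := by
  induction n with
  | zero =>
    rw [Tl, zero_add, zero_add, pow_one, h]
    norm_num
  | succ n ih =>
    rw [pow_succ 2 (n + 1), pow_mul, ih, Tl]
    ring

lemma Tl_sum (t : ℤ_[2]) (n : ℕ) :
    Tl t n = t + 4 * ∑ k ∈ Finset.range n, 2 ^ k * Tl t k ^ 2 := by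
  induction n with
  | zero => simp [Tl]
  | succ n ih =>
    rw [Finset.sum_range_succ, Tl, mul_add, ← add_assoc, ← ih]
    ring

/-- the logarithm -/
noncomputable def Ll (t : ℤ_[2]) : ℤ_[2] := t + 4 * ∑' k, 2 ^ k * Tl t k ^ 2

lemma Ll_tendsto (t : ℤ_[2]) : Tendsto (Tl t) atTop (𝓝 (Ll t)) := by
  have h1 := (summable_two fun k => Tl t k ^ 2).hasSum.tendsto_sum_nat
  have h2 := (h1.const_mul 4).const_add t
  refine h2.congr fun n => ?_
  exact (Tl_sum t n).symm

lemma Tl_cont (n : ℕ) : Continuous fun t => Tl t n := by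
  induction n with
  | zero => exact continuous_id
  | succ n ih => exact ih.add (continuous_const.mul (ih.pow 2))

lemma Ll_cont : Continuous Ll := by
  refine continuous_id.add (continuous_const.mul ?_)
  exact continuous_tsum (fun k => continuous_const.mul ((Tl_cont k).pow 2)) summable_geo
    fun k t => norm_two_pow k _

lemma Ll_mul {u v t t' t'' : ℤ_[2]} (h : u ^ 2 = 1 + 8 * t) (h' : v ^ 2 = 1 + 8 * t')
    (h'' : (u * v) ^ 2 = 1 + 8 * t'') : Ll t'' = Ll t + Ll t' := by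
  have key : ∀ n, Tl t'' n = Tl t n + Tl t' n + 2 ^ n * (8 * (Tl t n * Tl t' n)) := by
    intro n
    have h1 := Tl_pow h'' n
    rw [mul_pow, Tl_pow h n, Tl_pow h' n] at h1
    have h2 : (2 : ℤ_[2]) ^ (n + 3) ≠ 0 := pow_ne_zero _ (by norm_num)
    apply mul_left_cancel₀ h2
    linear_combination -h1
  have h3 := ((Ll_tendsto t).add (Ll_tendsto t')).add
    (tendsto_two fun n => 8 * (Tl t n * Tl t' n))
  rw [add_zero] at h3
  refine tendsto_nhds_unique (Ll_tendsto t'') (h3.congr fun n => (key n).symm)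

lemma sq_char {χ : G → ℤ_[2]} (hχ : IsChar χ) (x : G) : ∃ t, χ x ^ 2 = 1 + 8 * t := by
  have h1 : PadicInt.toZMod (χ x - 1) = 0 := by
    rw [map_sub, toZMod_char hχ, map_one, sub_self]
  obtain ⟨y, hy⟩ := dvd_of_toZMod h1
  have h2 : PadicInt.toZMod (y * (y + 1)) = 0 := by
    rw [map_mul, map_add, map_one]
    generalize PadicInt.toZMod y = a
    revert a
    decide
  obtain ⟨w, hw⟩ := dvd_of_toZMod h2
  refine ⟨w, ?_⟩
  have h3 : χ x = 1 + 2 * y := by linear_combination hy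
  rw [h3]
  linear_combination 4 * hw

/-- the logarithm of a character -/
theorem exists_log {χ : G → ℤ_[2]} (hχ : IsChar χ) :
    ∃ φ : G → ℤ_[2], Continuous φ ∧ (∀ x y, φ (x * y) = φ x + φ y) ∧
      ∀ x, ∃ t, χ x ^ 2 = 1 + 8 * φ x + 16 * t := by
  choose t ht using sq_char hχ
  have htc : Continuous t := by
    have h8 : Continuous fun x => 2 * (2 * (2 * t x)) := by
      have : (fun x => 2 * (2 * (2 * t x))) = fun x => χ x ^ 2 - 1 := by
        funext x
        rw [ht]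
        ring
      rw [this]
      exact (hχ.cont.pow 2).sub continuous_const
    exact cont_half (cont_half (cont_half h8))
  refine ⟨fun x => Ll (t x), Ll_cont.comp htc, fun x y => ?_, fun x => ?_⟩
  · exact Ll_mul (ht x) (ht y) (by rw [← hχ.mul, ht])
  · refine ⟨-(2 * ∑' k, 2 ^ k * Tl (t x) k ^ 2), ?_⟩
    have h1 : Ll (t x) = t x + 4 * ∑' k, 2 ^ k * Tl (t x) k ^ 2 := rfl
    rw [ht]
    beta_reduce
    rw [h1]
    ring

end log

section basic

variable {G : Type} [Group G] [TopologicalSpace G] [IsTopologicalGroup G]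

/-- **The basic class.** -/
theorem exists_z0 {χ : G → ℤ_[2]} (hχ : IsChar χ) (hL : Lifts χ)
    (hA2 : ∀ ψ ∈ HS G, ψ ≠ 0 → ∃ b ∈ HS G, cup ψ b ∉ B2 G)
    (hn : ∃ x, ∀ t, χ x ^ 2 ≠ 1 + 16 * t) : ∃ z₀ ∈ Zp χ, r2 z₀ ∉ B2 G := by
  obtain ⟨φ, hφ, hφm, hφt⟩ := exists_log hχ
  have hψ : (fun x => PadicInt.toZMod (φ x)) ∈ HS G :=
    ⟨Pool.Agent.K7.H57.PS.lc_toZMod.comp_continuous hφ, fun x y => by
      show PadicInt.toZMod (φ (x * y)) = _
      rw [hφm, map_add]⟩
  have hψ0 : (fun x => PadicInt.toZMod (φ x)) ≠ 0 := by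
    intro h
    obtain ⟨x, hx⟩ := hn
    obtain ⟨y, hy⟩ := dvd_of_toZMod (congrFun h x)
    obtain ⟨t, ht⟩ := hφt x
    refine hx (y + t) ?_
    rw [ht, hy]
    ring
  obtain ⟨b, hb, hcup⟩ := hA2 _ hψ hψ0
  obtain ⟨κ, hκ, hκm, hκb⟩ := hL b hb
  refine ⟨fun x y => κ x * φ y, ⟨(hκ.comp continuous_fst).mul (hφ.comp continuous_snd),
    fun x y w => ?_⟩, fun h => hcup ?_⟩
  · beta_reduce
    rw [hκm, hφm]
    ring
  · have h1 : r2 (fun x y => κ x * φ y) = cup b (fun x => PadicInt.toZMod (φ x)) := by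
      funext x y
      simp only [r2, cup, map_mul, hκb]
    rw [h1] at h
    have h3 := (B2 G).sub_mem (Pool.Agent.K7.H29.PS.cup_symm hψ hb) h
    rwa [add_sub_cancel_right] at h3

end basic

section padic

lemma isAdic_padic : IsAdic (maximalIdeal ℤ_[2]) := by
  rw [isAdic_iff]
  have hm : ∀ (n : ℕ) (x : ℤ_[2]), x ∈ maximalIdeal ℤ_[2] ^ n ↔ (2 : ℤ_[2]) ^ n ∣ x := by
    intro n x
    rw [PadicInt.maximalIdeal_eq_span_p, Ideal.span_singleton_pow, Ideal.mem_span_singleton]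
    norm_num
  constructor
  · intro n
    have h1 : ((maximalIdeal ℤ_[2] ^ n : Ideal ℤ_[2]) : Set ℤ_[2]) = {c | (2 : ℤ_[2]) ^ n ∣ c} := by
      ext x
      exact hm n x
    rw [h1]
    exact Pool.Agent.K7.H91.PS.isOpen_dvd n
  · intro s hs
    obtain ⟨ε, hε, hεs⟩ := Metric.mem_nhds_iff.1 hs
    obtain ⟨n, hn⟩ := exists_pow_lt_of_lt_one hε (show (1 / 2 : ℝ) < 1 by norm_num)
    refine ⟨n, fun x hx => hεs ?_⟩
    obtain ⟨y, rfl⟩ := (hm n x).1 hx
    rw [Metric.mem_ball, dist_zero_right]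
    exact (norm_two_pow n y).trans_lt hn

lemma two_mem_padic : (2 : ℤ_[2]) ∈ maximalIdeal ℤ_[2] := by
  rw [PadicInt.maximalIdeal_eq_span_p, Ideal.mem_span_singleton]
  norm_num

lemma fin_padic : Finite (ResidueField ℤ_[2]) :=
  Finite.of_equiv _ (PadicInt.residueField (p := 2)).symm.toEquiv

end padic

end Pool.Agent.H11.FM
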