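import Pool.Graph.R_pool_sql_team_seeded_35f281b4.H76.PS.I8

/-!
# Complete local rings with finite residue field of characteristic two
-/

set_option autoImplicit false
set_option linter.unusedSectionVars false

namespace Pool.Agent.H11.FM

open IsLocalRing Filter Topology

section ring

variable {A : Type} [CommRing A] [IsLocalRing A] [TopologicalSpace A] [IsTopologicalRing A]

lemma isOpen_pow (hA : IsAdic (maximalIdeal A)) (j : ℕ) :
    IsOpen ((maximalIdeal A ^ j : Ideal A) : Set A) := (isAdic_iff.1 hA).1 j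

lemma isOpen_near (hA : IsAdic (maximalIdeal A)) (j : ℕ) (a : A) :
    {x : A | x - a ∈ maximalIdeal A ^ j} ∈ 𝓝 a := by
  have h1 : IsOpen ((fun x : A => x - a) ⁻¹' ((maximalIdeal A ^ j : Ideal A) : Set A)) :=
    (isOpen_pow hA j).preimage (continuous_id.sub continuous_const)
  refine h1.mem_nhds ?_
  show a - a ∈ maximalIdeal A ^ j
  rw [sub_self]
  exact zero_mem _

/-- a uniform limit of continuous functions -/
lemma cont_of_approx (hA : IsAdic (maximalIdeal A)) {X : Type} [TopologicalSpace X] {f : X → A}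
    (S : ℕ → X → A) (hS : ∀ j, Continuous (S j))
    (h : ∀ j x, f x - S j x ∈ maximalIdeal A ^ j) : Continuous f := by
  rw [continuous_iff_continuousAt]
  intro x
  rw [ContinuousAt, ← tendsto_sub_nhds_zero_iff]
  intro s hs
  obtain ⟨j, hj⟩ := (isAdic_iff.1 hA).2 s hs
  have h1 : ∀ᶠ y in 𝓝 x, S j y - S j x ∈ maximalIdeal A ^ j :=
    (hS j).continuousAt.eventually (isOpen_near hA j (S j x))
  rw [Filter.mem_map]
  filter_upwards [h1] with y hy
  refine hj ?_
  have e : f y - f x = (f y - S j y) + (S j y - S j x) - (f x - S j x) := by ring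
  show f y - f x ∈ maximalIdeal A ^ j
  rw [e]
  exact sub_mem (add_mem (h j y) hy) (h j x)

lemma exists_sum (hc : IsAdicComplete (maximalIdeal A) A) (u : ℕ → A)
    (hu : ∀ j, u j ∈ maximalIdeal A ^ j) :
    ∃ L : A, ∀ j, L - ∑ i ∈ Finset.range j, u i ∈ maximalIdeal A ^ j := by
  have hp : IsPrecomplete (maximalIdeal A) A := hc.toIsPrecomplete
  obtain ⟨L, hL⟩ := hp.prec (f := fun j => ∑ i ∈ Finset.range j, u i) (fun {m n} hmn => by
    rw [SModEq.sub_mem, smul_eq_mul, Ideal.mul_top]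
    have h1 : ∑ i ∈ Finset.range n, u i = ∑ i ∈ Finset.range m, u i +
        ∑ i ∈ Finset.Ico m n, u i := (Finset.sum_range_add_sum_Ico u hmn).symm
    rw [h1, sub_add_cancel_left]
    refine neg_mem (Ideal.sum_mem _ fun i hi => ?_)
    exact Ideal.pow_le_pow_right (Finset.mem_Ico.1 hi).1 (hu i))
  refine ⟨L, fun j => ?_⟩
  have h2 := hL j
  rw [SModEq.sub_mem, smul_eq_mul, Ideal.mul_top] at h2
  have h3 := neg_mem h2
  rwa [neg_sub] at h3

lemma eq_zero_of_mem [IsNoetherianRing A] {a : A} (h : ∀ j : ℕ, a ∈ maximalIdeal A ^ j) : a = 0 := by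
  have h1 : a ∈ (⨅ j, maximalIdeal A ^ j : Ideal A) := (Submodule.mem_iInf _).2 h
  rwa [Ideal.iInf_pow_eq_bot_of_isLocalRing _ Ideal.IsPrime.ne_top', Submodule.mem_bot] at h1

lemma cont_alg (hA : IsAdic (maximalIdeal A)) (h2 : (2 : A) ∈ maximalIdeal A) [Algebra ℤ_[2] A] :
    Continuous fun t : ℤ_[2] => algebraMap ℤ_[2] A t := by
  rw [continuous_iff_continuousAt]
  intro x
  rw [ContinuousAt, ← tendsto_sub_nhds_zero_iff]
  intro s hs
  obtain ⟨j, hj⟩ := (isAdic_iff.1 hA).2 s hs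
  have h1 : ∀ᶠ y in 𝓝 x, (2 : ℤ_[2]) ^ j ∣ y - x := by
    have h2 : IsOpen ((fun y : ℤ_[2] => y - x) ⁻¹' {c : ℤ_[2] | (2 : ℤ_[2]) ^ j ∣ c}) :=
      (Pool.Agent.K7.H91.PS.isOpen_dvd j).preimage (continuous_id.sub continuous_const)
    refine h2.mem_nhds ?_
    show (2 : ℤ_[2]) ^ j ∣ x - x
    rw [sub_self]
    exact dvd_zero _
  rw [Filter.mem_map]
  filter_upwards [h1] with y hy
  refine hj ?_
  obtain ⟨t, ht⟩ := hy
  show algebraMap ℤ_[2] A y - algebraMap ℤ_[2] A x ∈ maximalIdeal A ^ j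
  rw [← map_sub, ht, map_mul, map_pow, map_ofNat]
  exact Ideal.mul_mem_right _ _ (Ideal.pow_mem_pow h2 j)

/-- an element of `ℤ_2` which is `0` modulo two -/
lemma alg_mem (h2 : (2 : A) ∈ maximalIdeal A) [Algebra ℤ_[2] A] {t : ℤ_[2]}
    (ht : PadicInt.toZMod t = 0) : algebraMap ℤ_[2] A t ∈ maximalIdeal A := by
  obtain ⟨u, hu⟩ := (Pool.Agent.K7.H91.PS.tz_zero t).1 ht
  rw [hu, map_mul, map_ofNat]
  exact Ideal.mul_mem_right _ _ h2

/-! ### The graded pieces -/

variable (A) in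
/-- `m ^ j / m ^ (j + 1)` -/
abbrev W (j : ℕ) : Type := ((maximalIdeal A ^ j).map (Ideal.Quotient.mk (maximalIdeal A ^ (j + 1))) :
  Ideal (A ⧸ maximalIdeal A ^ (j + 1)))

/-- the class of an element -/
def cl {j : ℕ} (a : A) (h : a ∈ maximalIdeal A ^ j) : W A j :=
  ⟨Ideal.Quotient.mk _ a, Ideal.mem_map_of_mem _ h⟩

lemma cl_eq_iff {j : ℕ} {a b : A} {ha : a ∈ maximalIdeal A ^ j} {hb : b ∈ maximalIdeal A ^ j} :
    cl a ha = cl b hb ↔ a - b ∈ maximalIdeal A ^ (j + 1) := by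
  rw [cl, cl, Subtype.mk.injEq, Ideal.Quotient.mk_eq_mk_iff_sub_mem]

lemma cl_eq_zero {j : ℕ} {a : A} {ha : a ∈ maximalIdeal A ^ j} :
    cl a ha = 0 ↔ a ∈ maximalIdeal A ^ (j + 1) := by
  rw [cl, ← Subtype.coe_inj, Submodule.coe_zero, Ideal.Quotient.eq_zero_iff_mem]

lemma cl_add {j : ℕ} {a b : A} {ha : a ∈ maximalIdeal A ^ j} {hb : b ∈ maximalIdeal A ^ j} :
    cl (a + b) (add_mem ha hb) = cl a ha + cl b hb := by
  apply Subtype.ext
  rw [Submodule.coe_add]
  exact map_add _ _ _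

lemma cl_sub {j : ℕ} {a b : A} {ha : a ∈ maximalIdeal A ^ j} {hb : b ∈ maximalIdeal A ^ j} :
    cl (a - b) (sub_mem ha hb) = cl a ha - cl b hb := by
  apply Subtype.ext
  rw [AddSubgroupClass.coe_sub]
  exact map_sub _ _ _

lemma exists_cl {j : ℕ} (w : W A j) : ∃ (a : A) (h : a ∈ maximalIdeal A ^ j), cl a h = w := by
  obtain ⟨w, hw⟩ := w
  obtain ⟨a, ha, rfl⟩ := (Ideal.mem_map_iff_of_surjective _ Ideal.Quotient.mk_surjective).1 hw
  exact ⟨a, ha, rfl⟩

lemma w_add_self (h2 : (2 : A) ∈ maximalIdeal A) {j : ℕ} (w : W A j) : w + w = 0 := by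
  obtain ⟨a, ha, rfl⟩ := exists_cl w
  rw [← cl_add, cl_eq_zero, ← two_mul, pow_succ']
  exact Ideal.mul_mem_mul h2 ha

lemma finite_W [IsNoetherianRing A] (hfin : Finite (ResidueField A)) (j : ℕ) : Finite (W A j) := by
  have hf1 : Finite (A ⧸ maximalIdeal A) := hfin
  have hf2 : Finite (A ⧸ maximalIdeal A ^ (j + 1)) :=
    Ideal.finite_quotient_pow (IsNoetherian.noetherian (maximalIdeal A)) (j + 1)
  infer_instance

lemma cl_lc (hA : IsAdic (maximalIdeal A)) {X : Type} [TopologicalSpace X] {j : ℕ} {f : X → A}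
    (hf : Continuous f) (h : ∀ x, f x ∈ maximalIdeal A ^ j) :
    IsLocallyConstant fun x => cl (f x) (h x) := by
  rw [IsLocallyConstant.iff_eventually_eq]
  intro x
  filter_upwards [hf.continuousAt.eventually (isOpen_near hA (j + 1) (f x))] with y hy
  exact cl_eq_iff.2 hy

end ring

end Pool.Agent.H11.FM
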